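import Pool.Agent.H96.MC.Targets
import Pool.Agent.H96.MC.Targets2

/-!
# MP_5da387_pr, module OWN: components of the owner sets of a family of cubes
-/

namespace Pool.Agent.H47.MC.OWN

open Pool.Agent.H96.MC

variable {d : ℕ}

/-- `p` is the owner of `b` -/
def IsOwn (C : Set (Cell d × ℕ)) (enc : Cell d × ℕ → ℕ) (b : Cell d) (p : Cell d × ℕ) : Prop :=
  p ∈ C ∧ sn (b - p.1) ≤ p.2 ∧ ∀ p', p' ∈ C → sn (b - p'.1) ≤ p'.2 → enc p ≤ enc p'

/-- adjacency inside the owner set of `p` -/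
def Rel (C : Set (Cell d × ℕ)) (enc : Cell d × ℕ → ℕ) (p : Cell d × ℕ) (a c : Cell d) : Prop :=
  IsOwn C enc a p ∧ IsOwn C enc c p ∧ Adj a c

theorem comp_fin (C : Set (Cell d × ℕ)) (enc : Cell d × ℕ → ℕ) (p : Cell d × ℕ) (b : Cell d) :
    {b' | IsOwn C enc b' p ∧ Relation.ReflTransGen (Rel C enc p) b b'}.Finite := by
  refine (cube p.1 p.2).finite_toSet.subset ?_
  intro b' hb'
  exact Finset.mem_coe.2 (mem_cube.2 hb'.1.2.1)

/-- component of `b` in the owner set of `p` -/
noncomputable def comp (C : Set (Cell d × ℕ)) (enc : Cell d × ℕ → ℕ) (p : Cell d × ℕ)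
    (b : Cell d) : Finset (Cell d) := (comp_fin C enc p b).toFinset

theorem mem_comp {C : Set (Cell d × ℕ)} {enc : Cell d × ℕ → ℕ} {p : Cell d × ℕ} {b b' : Cell d} :
    b' ∈ comp C enc p b ↔ IsOwn C enc b' p ∧ Relation.ReflTransGen (Rel C enc p) b b' := by
  unfold comp
  rw [Set.Finite.mem_toFinset]
  exact Iff.rfl

theorem adj_comm {a b : Cell d} (h : Adj a b) : Adj b a := by
  unfold Adj at *
  rw [← h]
  refine Finset.sum_congr rfl fun i _ => ?_
  rw [← Int.natAbs_neg]
  congr 1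
  ring

theorem rel_symm {C : Set (Cell d × ℕ)} {enc : Cell d × ℕ → ℕ} {p : Cell d × ℕ} {a b : Cell d}
    (h : Rel C enc p a b) : Rel C enc p b a := ⟨h.2.1, h.1, adj_comm h.2.2⟩

theorem reach_symm {C : Set (Cell d × ℕ)} {enc : Cell d × ℕ → ℕ} {p : Cell d × ℕ} {a b : Cell d}
    (h : Relation.ReflTransGen (Rel C enc p) a b) : Relation.ReflTransGen (Rel C enc p) b a := by
  induction h with
  | refl => exact Relation.ReflTransGen.refl
  | tail _ h2 ih => exact Relation.ReflTransGen.head (rel_symm h2) ih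

theorem own_unique {C : Set (Cell d × ℕ)} {enc : Cell d × ℕ → ℕ} (henc : Function.Injective enc)
    {b : Cell d} {p p' : Cell d × ℕ} (h : IsOwn C enc b p) (h' : IsOwn C enc b p') : p = p' := by
  apply henc
  exact le_antisymm (h.2.2 p' h'.1 h'.2.1) (h'.2.2 p h.1 h.2.1)

theorem own_exists {C : Set (Cell d × ℕ)} {enc : Cell d × ℕ → ℕ} {b : Cell d}
    (h : ∃ p ∈ C, sn (b - p.1) ≤ p.2) : ∃ p, IsOwn C enc b p := by
  classical
  obtain ⟨p₀, h1, h2⟩ := h
  have hne : ∃ k, ∃ p ∈ C, sn (b - p.1) ≤ p.2 ∧ enc p = k := ⟨enc p₀, p₀, h1, h2, rfl⟩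
  obtain ⟨p, hp1, hp2, hp3⟩ := Nat.find_spec hne
  refine ⟨p, hp1, hp2, fun p' h1' h2' => ?_⟩
  rw [hp3]
  exact Nat.find_min' hne ⟨p', h1', h2', rfl⟩

/-- the distance inequalities -/
def Near (D : ℕ) (b : Cell d) (p : Cell d × ℕ) : Prop :=
  p.2 ≤ sn (b - p.1) + D ∧ sn (b - p.1) ≤ p.2 + D

/-- `b` inside, `c` outside the cube, at distance at most `D` -/
theorem near_in {D : ℕ} {b c : Cell d} {p : Cell d × ℕ} (h1 : sn (b - p.1) ≤ p.2)
    (h2 : p.2 < sn (c - p.1)) (h3 : sn (b - c) ≤ D) : Near D b p := by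
  have h4 := sn_sub_le c b p.1
  have h5 := sn_sub_comm b c
  constructor <;> omega

theorem near_out {D : ℕ} {b c : Cell d} {p : Cell d × ℕ} (h1 : sn (b - p.1) ≤ p.2)
    (h2 : p.2 < sn (c - p.1)) (h3 : sn (b - c) ≤ D) : Near D c p := by
  have h4 := sn_sub_le c b p.1
  have h5 := sn_sub_comm b c
  constructor <;> omega

theorem not_own_cases {C : Set (Cell d × ℕ)} {enc : Cell d × ℕ → ℕ} {b : Cell d}
    {p : Cell d × ℕ} (hp : p ∈ C) (h : ¬ IsOwn C enc b p) (h2 : sn (b - p.1) ≤ p.2) :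
    ∃ p' ∈ C, sn (b - p'.1) ≤ p'.2 ∧ enc p' < enc p := by
  unfold IsOwn at h
  push Not at h
  obtain ⟨p', h3, h4, h5⟩ := h hp h2
  exact ⟨p', h3, h4, h5⟩

theorem own_lt {C : Set (Cell d × ℕ)} {enc : Cell d × ℕ → ℕ} {b : Cell d}
    {p p' : Cell d × ℕ} (h : IsOwn C enc b p) (hp' : p' ∈ C) (h2 : enc p' < enc p) :
    p'.2 < sn (b - p'.1) := by
  by_contra hcon
  push Not at hcon
  have := h.2.2 p' hp' hcon
  omega

theorem sn_box {a b c : Cell d}
    (hc : c ∈ Fintype.piFinset (fun i => Finset.Icc (min (a i) (b i)) (max (a i) (b i)))) :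
    sn (a - c) ≤ sn (a - b) ∧ sn (b - c) ≤ sn (a - b) := by
  rw [Fintype.mem_piFinset] at hc
  constructor
  · rw [sn_le_iff]
    intro i
    have h1 := hc i
    have h2 := natAbs_le_sn (a - b) i
    rw [Finset.mem_Icc] at h1
    simp only [Pi.sub_apply] at h2 ⊢
    rcases le_total (a i) (b i) with h | h
    · rw [min_eq_left h, max_eq_right h] at h1
      omega
    · rw [min_eq_right h, max_eq_left h] at h1
      omega
  · rw [sn_le_iff]
    intro i
    have h1 := hc i
    have h2 := natAbs_le_sn (a - b) i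
    rw [Finset.mem_Icc] at h1
    simp only [Pi.sub_apply] at h2 ⊢
    rcases le_total (a i) (b i) with h | h
    · rw [min_eq_left h, max_eq_right h] at h1
      omega
    · rw [min_eq_right h, max_eq_left h] at h1
      omega

end Pool.Agent.H47.MC.OWN

namespace Pool.Agent.H47.MC

open Pool.Agent.H96.MC OWN

theorem own (h : T_BOX) : T_OWN := by
  classical
  intro d C H _
  obtain ⟨enc, henc⟩ := exists_injective_nat (Cell d × ℕ)
  set Yc : Cell d → Finset (Cell d) := fun b =>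
    if hb : ∃ p, IsOwn C enc b p then comp C enc (Classical.choose hb) b else ∅ with hYc
  have key : ∀ b p, IsOwn C enc b p → Yc b = comp C enc p b := by
    intro b p hp
    have hb : ∃ p, IsOwn C enc b p := ⟨p, hp⟩
    have h1 : Classical.choose hb = p := own_unique henc (Classical.choose_spec hb) hp
    simp only [hYc, dif_pos hb, h1]
  have key2 : ∀ b, (¬ ∃ p, IsOwn C enc b p) → Yc b = ∅ := by
    intro b hb
    simp only [hYc, dif_neg hb]
  -- membership implies an owner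
  have key3 : ∀ b b', b' ∈ Yc b → ∃ p, IsOwn C enc b p ∧ IsOwn C enc b' p ∧
      Relation.ReflTransGen (Rel C enc p) b b' := by
    intro b b' hb'
    by_cases hb : ∃ p, IsOwn C enc b p
    · obtain ⟨p, hp⟩ := hb
      rw [key b p hp, mem_comp] at hb'
      exact ⟨p, hp, hb'⟩
    · rw [key2 b hb] at hb'
      simp at hb'
  refine ⟨Yc, ?_, ?_, ?_, ?_, ?_⟩
  · intro b hb
    obtain ⟨p, hp⟩ := own_exists (enc := enc) hb
    refine ⟨?_, p, hp.1, ?_⟩
    · rw [key b p hp, mem_comp]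
      exact ⟨hp, Relation.ReflTransGen.refl⟩
    · intro b' hb'
      rw [key b p hp, mem_comp] at hb'
      exact hb'.1.2.1
  · intro b hb
    apply key2
    rintro ⟨p, hp⟩
    exact hb ⟨p, hp.1, hp.2.1⟩
  · intro b x hx y hy
    obtain ⟨p, hp, hxp, hbx⟩ := key3 b x hx
    rw [key b p hp, mem_comp] at hy
    have claim : ∀ c, Relation.ReflTransGen (Rel C enc p) b c →
        Relation.ReflTransGen (fun a a' => a ∈ Yc b ∧ a' ∈ Yc b ∧ Adj a a') b c := by
      intro c hc
      induction hc with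
      | refl => exact Relation.ReflTransGen.refl
      | @tail c c' h1 h2 ih =>
        refine ih.tail ⟨?_, ?_, h2.2.2⟩
        · rw [key b p hp, mem_comp]
          exact ⟨h2.1, h1⟩
        · rw [key b p hp, mem_comp]
          exact ⟨h2.2.1, h1.tail h2⟩
    have hsymm : ∀ a c, Relation.ReflTransGen (fun a a' => a ∈ Yc b ∧ a' ∈ Yc b ∧ Adj a a') a c →
        Relation.ReflTransGen (fun a a' => a ∈ Yc b ∧ a' ∈ Yc b ∧ Adj a a') c a := by
      intro a c hac
      induction hac with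
      | refl => exact Relation.ReflTransGen.refl
      | tail _ h2 ih => exact Relation.ReflTransGen.head ⟨h2.2.1, h2.1, adj_comm h2.2.2⟩ ih
    exact (hsymm _ _ (claim x hbx)).trans (claim y hy.2)
  · intro b b' hb'
    obtain ⟨p, hp, hp', hr⟩ := key3 b b' hb'
    rw [key b p hp, key b' p hp']
    ext c
    rw [mem_comp, mem_comp]
    constructor
    · rintro ⟨h1, h2⟩
      exact ⟨h1, hr.trans h2⟩
    · rintro ⟨h1, h2⟩
      exact ⟨h1, (reach_symm hr).trans h2⟩
  · intro b b₁ b₂ h1 h2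
    obtain ⟨p, hp, hp1, hr⟩ := key3 b b₁ h1
    by_cases ho : IsOwn C enc b₂ p
    · -- another component
      have hbox := h d (fun i => min (b₁ i) (b₂ i)) (fun i => max (b₁ i) (b₂ i))
      have hm1 : b₁ ∈ Fintype.piFinset (fun i => Finset.Icc (min (b₁ i) (b₂ i)) (max (b₁ i) (b₂ i))) := by
        rw [Fintype.mem_piFinset]
        intro i
        rw [Finset.mem_Icc]
        exact ⟨min_le_left _ _, le_max_left _ _⟩
      have hm2 : b₂ ∈ Fintype.piFinset (fun i => Finset.Icc (min (b₁ i) (b₂ i)) (max (b₁ i) (b₂ i))) := by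
        rw [Fintype.mem_piFinset]
        intro i
        rw [Finset.mem_Icc]
        exact ⟨min_le_right _ _, le_max_right _ _⟩
      have hex : ∃ b₃ ∈ Fintype.piFinset (fun i => Finset.Icc (min (b₁ i) (b₂ i)) (max (b₁ i) (b₂ i))),
          ¬ IsOwn C enc b₃ p := by
        by_contra hcon
        push Not at hcon
        apply h2
        rw [key b p hp, mem_comp]
        refine ⟨ho, hr.trans ?_⟩
        have hgen : ∀ c, Relation.ReflTransGen (fun a a' =>
            a ∈ Fintype.piFinset (fun i => Finset.Icc (min (b₁ i) (b₂ i)) (max (b₁ i) (b₂ i))) ∧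
            a' ∈ Fintype.piFinset (fun i => Finset.Icc (min (b₁ i) (b₂ i)) (max (b₁ i) (b₂ i))) ∧
              Adj a a') b₁ c → Relation.ReflTransGen (Rel C enc p) b₁ c := by
          intro c hc
          induction hc with
          | refl => exact Relation.ReflTransGen.refl
          | @tail a a' _ h4 ih => exact ih.tail ⟨hcon a h4.1, hcon a' h4.2.1, h4.2.2⟩
        exact hgen b₂ (hbox b₁ hm1 b₂ hm2)
      obtain ⟨b₃, hb3, hn3⟩ := hex
      obtain ⟨hd1, hd2⟩ := sn_box hb3
      by_cases hc : sn (b₃ - p.1) ≤ p.2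
      · obtain ⟨p', hp', hc', hlt⟩ := not_own_cases hp.1 hn3 hc
        have ho1 := own_lt hp1 hp' hlt
        have ho2 := own_lt ho hp' hlt
        refine ⟨p', hp', near_out hc' ho1 ?_, near_out hc' ho2 ?_⟩
        · rw [sn_sub_comm]; exact hd1
        · rw [sn_sub_comm]; exact hd2
      · push Not at hc
        exact ⟨p, hp.1, near_in hp1.2.1 hc hd1, near_in ho.2.1 hc hd2⟩
    · by_cases hc : sn (b₂ - p.1) ≤ p.2
      · obtain ⟨p', hp', hc', hlt⟩ := not_own_cases hp.1 ho hc
        have ho1 := own_lt hp1 hp' hlt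
        refine ⟨p', hp', near_out hc' ho1 (by rw [sn_sub_comm]), near_in hc' ho1 (by rw [sn_sub_comm])⟩
      · push Not at hc
        exact ⟨p, hp.1, near_in hp1.2.1 hc le_rfl, near_out hp1.2.1 hc le_rfl⟩

end Pool.Agent.H47.MC
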