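import Pool.Agent.H96.MC.Targets
import Pool.Agent.H96.MC.Targets2

/-!
# MP_5da387_pr, module ZONS: one more level of zones
-/

namespace Pool.Agent.H47.MC.ZONS

open Pool.Agent.H96.MC

variable {d q : ℕ}

theorem bl_of_base {l0 l : ℕ} (h0 : 1 ≤ l0) (hd : l0 ∣ l) {x y : Cell d}
    (h : bl l0 x = bl l0 y) : bl l x = bl l y := by
  obtain ⟨k, rfl⟩ := hd
  have hl0 : (0 : ℤ) ≤ (l0 : ℤ) := by positivity
  funext i
  have h1 : x i / (l0 : ℤ) = y i / (l0 : ℤ) := congrFun h i
  simp only [bl]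
  push_cast
  rw [← Int.ediv_ediv_of_nonneg hl0, ← Int.ediv_ediv_of_nonneg hl0, h1]

theorem sn_of_adj {a b : Cell d} (h : Adj a b) : sn (a - b) ≤ 1 := by
  rw [sn_le_iff]
  intro i
  have h1 : ((a i - b i).natAbs) ≤ ∑ i, (a i - b i).natAbs :=
    Finset.single_le_sum (f := fun i => (a i - b i).natAbs) (fun _ _ => Nat.zero_le _)
      (Finset.mem_univ i)
  unfold Adj at h
  simp only [Pi.sub_apply]
  omega

theorem A_mono {P : Par} (h : ∀ j, 64 * P.A j ≤ P.A (j + 1)) : Monotone P.A := by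
  apply monotone_nat_of_le_succ
  intro j
  have := h j
  omega

open Classical in
/-- the absorbed part -/
noncomputable def big (l : ℕ) (reg Yc : Cell d → Finset (Cell d)) (x : Cell d) : Finset (Cell d) :=
  ((Yc (bl l x)).biUnion (cellsOf l)).filter (fun y => ∀ y' ∈ reg y, bl l y' ∈ Yc (bl l x))

theorem mem_big {l : ℕ} (hl : 1 ≤ l) {reg Yc : Cell d → Finset (Cell d)} {x y : Cell d} :
    y ∈ big l reg Yc x ↔ bl l y ∈ Yc (bl l x) ∧ ∀ y' ∈ reg y, bl l y' ∈ Yc (bl l x) := by
  classical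
  unfold big
  simp only [Finset.mem_filter, Finset.mem_biUnion]
  constructor
  · rintro ⟨⟨b, hb, hy⟩, h2⟩
    rw [mem_cellsOf hl] at hy
    subst hy
    exact ⟨hb, h2⟩
  · rintro ⟨h1, h2⟩
    exact ⟨⟨_, h1, mem_cellsOf_bl hl y⟩, h2⟩

end Pool.Agent.H47.MC.ZONS

namespace Pool.Agent.H47.MC

open Pool.Agent.H96.MC ZONS

theorem zons (_h0 : T_BOX) (h1 : T_OWN) : T_ZONS := by
  classical
  intro d q D η c₁ E P hP n J reg lev hclean hz
  have hl0 : 1 ≤ P.l 0 := hP.lpos 0
  have hl : 1 ≤ P.l (J + 1) := hP.lpos (J + 1)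
  have hdvd := hP.dvd (J + 1)
  have hwl := hP.wl (J + 1) (by omega)
  have hwk := hP.wk (J + 1) (by omega)
  have hlA := hP.lA (J + 1)
  have hAm := A_mono hP.Amono
  have hAJ := hP.Amono J
  -- clean radii
  choose! hh hhs using hclean
  set l := P.l (J + 1) with hldef
  have hrad : ∀ z, ¬ FF D P η n (J + 1) z → 2 * (hh z * l) ≤ P.A (J + 1) := by
    intro z hzz
    have h3 := (hhs z hzz).2.1
    rw [← hldef] at h3
    have h4 := Nat.mul_div_le (P.A (J + 1)) (4 * l)
    set Q := P.A (J + 1) / (4 * l) with hQ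
    have h5 : hh z + 1 ≤ 2 * Q := by omega
    have h6 : (hh z + 1) * (2 * l) ≤ 2 * Q * (2 * l) := Nat.mul_le_mul_right _ h5
    nlinarith [h6, h4]
  set C : Set (Cell d × ℕ) := {p | ∃ z, FF D P η n J z ∧ ¬ FF D P η n (J + 1) z ∧
    p = (bl l z, hh z)} with hC
  obtain ⟨Yc, o1, o2, o3, o4, o5⟩ := h1 d C (2 * (P.A (J + 1) / (4 * l))) (by
    rintro p ⟨z, _, hz2, rfl⟩
    exact (hhs z hz2).2.1.le)
  -- nonempty components contain their block and are covered
  have hcov : ∀ b b', b' ∈ Yc b → ∃ p ∈ C, sn (b - p.1) ≤ p.2 := by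
    intro b b' hb
    by_contra hcon
    rw [o2 b hcon] at hb
    simp at hb
  have hself : ∀ b b', b' ∈ Yc b → b ∈ Yc b := fun b b' hb => (o1 b (hcov b b' hb)).1
  -- absorbed cells
  set ab : Cell d → Prop := fun x => bl l x ∈ Yc (bl l x) ∧ ∀ y ∈ reg x, bl l y ∈ Yc (bl l x)
    with hab
  have regeq : ∀ x y, y ∈ reg x → reg y = reg x := fun x y h => (hz.part x y h).1
  -- facts on absorbed cells
  have F2 : ∀ x y, ab x → y ∈ big l reg Yc x → ab y ∧ big l reg Yc y = big l reg Yc x := by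
    intro x y _ hy
    rw [mem_big hl] at hy
    have hY := o4 _ _ hy.1
    refine ⟨⟨by rw [hY]; exact hy.1, fun y' hy' => by rw [hY]; exact hy.2 y' hy'⟩, ?_⟩
    ext w
    rw [mem_big hl, mem_big hl, hY]
  have F2' : ∀ x y, ¬ ab x → y ∈ reg x → ¬ ab y := by
    intro x y hx hy hay
    apply hx
    have hxy : x ∈ reg y := by rw [regeq x y hy]; exact hz.mem x
    have hY := o4 _ _ (hay.2 x hxy)
    refine ⟨by rw [hY]; exact hay.2 x hxy, fun y' hy' => ?_⟩
    rw [hY]
    apply hay.2
    rw [regeq x y hy]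
    exact hy'
  have F2'' : ∀ x y, ab x → y ∈ reg x → y ∈ big l reg Yc x := by
    intro x y hx hy
    rw [mem_big hl]
    refine ⟨hx.2 y hy, fun y' hy' => hx.2 y' ?_⟩
    rw [← regeq x y hy]
    exact hy'
  -- crossing regions are small
  have F4 : ∀ b x' y y', y ∈ reg x' → y' ∈ reg x' → bl l y ∈ Yc b → bl l y' ∉ Yc b →
      2 * sn (y - y') ≤ P.w (J + 1) := by
    intro b x' y y' hy hy' hyY hy'Y
    have hk1 : 1 ≤ lev x' := by
      by_contra hcon
      have h0 : lev x' = 0 := by omega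
      have hr := hz.lev0 x' h0
      rw [hr, mem_cellsOf hl0] at hy hy'
      have := bl_of_base hl0 hdvd (hy.trans hy'.symm)
      rw [this] at hyY
      exact hy'Y hyY
    obtain ⟨zk, Yk, hk2, hk3, hk4, hk5, -⟩ := hz.zone x' hk1
    set k := lev x' with hk
    have hAk : P.A k ≤ P.A J := hAm hk2
    have hy1 := hk5 y hy
    have hy2 := hk5 y' hy'
    -- the near pair
    have hnear : ∃ z', FF D P η n J z' ∧ ¬ FF D P η n (J + 1) z' ∧ ∃ Dd, Dd * l ≤ P.A k + l ∧
        hh z' ≤ sn (bl l zk - bl l z') + Dd ∧ sn (bl l zk - bl l z') ≤ hh z' + Dd := by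
      by_cases hzkY : bl l zk ∈ Yc b
      · obtain ⟨p, ⟨z', hz1, hz2, rfl⟩, hn1, hn2⟩ := o5 b (bl l zk) (bl l y') hzkY hy'Y
        refine ⟨z', hz1, hz2, sn (bl l zk - bl l y'), ?_, hn1.1, hn1.2⟩
        have h5 := sn_bl_mul_le hl zk y'
        have h6 := sn_sub_comm zk y'
        omega
      · obtain ⟨p, ⟨z', hz1, hz2, rfl⟩, hn1, hn2⟩ := o5 b (bl l y) (bl l zk) hyY hzkY
        refine ⟨z', hz1, hz2, sn (bl l y - bl l zk), ?_, hn2.1, hn2.2⟩
        have h5 := sn_bl_mul_le hl y zk
        omega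
    obtain ⟨z', hz1, hz2, Dd, hD, hn1, hn2⟩ := hnear
    have hkk : k ≤ P.k0 (J + 1) := by
      by_contra hcon
      push Not at hcon
      have hcl := (hhs z' hz2).2.2.2.2 (k - 1) (by omega) (by omega) zk
      have h7 : k - 1 + 1 = k := by omega
      rw [h7, ← hldef] at hcl
      have hdist : sn (zk - z') ≤ 2 * P.A (J + 1) := by
        have h8 := sn_le_bl hl zk z'
        have h9 := hrad z' hz2
        have h10 : l * sn (bl l zk - bl l z') ≤ l * (hh z' + Dd) := Nat.mul_le_mul_left _ hn2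
        nlinarith
      have hfin := hcl hdist hk3
      have hDd : Dd ≤ P.A k / l + 1 := by
        have h11 : (Dd - 1) * l ≤ P.A k := by
          rcases Nat.eq_zero_or_pos Dd with h12 | h12
          · subst h12; simp
          · have : Dd = (Dd - 1) + 1 := by omega
            rw [this] at hD
            nlinarith
        have h12 : Dd - 1 ≤ P.A k / l := (Nat.le_div_iff_mul_le (by omega)).2 h11
        omega
      omega
    have h13 : P.A k ≤ P.A (P.k0 (J + 1)) := hAm hkk
    have h14 := sn_sub_le y zk y'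
    have h15 := sn_sub_comm zk y'
    omega
  -- points close to the boundary of a component
  have Fn : ∀ b b₁ b₂, b₁ ∈ Yc b → b₂ ∉ Yc b → ∀ m, sn (b₁ - b₂) ≤ m →
      ∃ z', FF D P η n J z' ∧ ¬ FF D P η n (J + 1) z' ∧ hh z' ≤ sn (b₁ - bl l z') + m ∧
        sn (b₁ - bl l z') ≤ hh z' + m := by
    intro b b₁ b₂ hb1 hb2 m hm
    obtain ⟨p, ⟨z', hz1, hz2, rfl⟩, hn1, -⟩ := o5 b b₁ b₂ hb1 hb2
    refine ⟨z', hz1, hz2, ?_, ?_⟩
    · have := hn1.1
      simp only at this
      omega
    · have := hn1.2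
      simp only at this
      omega
  refine ⟨fun x => if ab x then big l reg Yc x else reg x, fun x => if ab x then J + 1 else lev x,
    ?_, ?_, ?_, ?_, ?_, ?_, ?_⟩
  · -- mem
    intro x
    split_ifs with hx
    · exact F2'' x x hx (hz.mem x)
    · exact hz.mem x
  · -- part
    intro x y hy
    by_cases hx : ab x
    · rw [if_pos hx] at hy
      obtain ⟨hay, hb⟩ := F2 x y hx hy
      rw [if_pos hay, if_pos hx, if_pos hay, if_pos hx]
      exact ⟨hb, rfl⟩
    · rw [if_neg hx] at hy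
      have hay := F2' x y hx hy
      rw [if_neg hay, if_neg hx, if_neg hay, if_neg hx]
      exact hz.part x y hy
  · -- base
    intro x y hxy
    split_ifs with hx
    · exact F2'' x y hx (hz.base x y hxy)
    · exact hz.base x y hxy
  · -- lev0
    intro x hx0
    by_cases hx : ab x
    · rw [if_pos hx] at hx0
      omega
    · rw [if_neg hx] at hx0 ⊢
      exact hz.lev0 x hx0
  · -- res
    intro x hx0 hF
    by_cases hx : ab x
    · rw [if_pos hx] at hx0
      omega
    · rw [if_neg hx] at hx0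
      have hFJ := hz.res x hx0 hF
      by_contra hcon
      apply hx
      have hc : ∃ p ∈ C, sn (bl l x - p.1) ≤ p.2 := by
        refine ⟨(bl l x, hh x), ⟨x, hFJ, hcon, rfl⟩, ?_⟩
        simp [sn_zero]
      have hs := (o1 _ hc).1
      refine ⟨hs, fun y hy => ?_⟩
      rw [hz.lev0 x hx0, mem_cellsOf hl0] at hy
      rw [bl_of_base hl0 hdvd hy]
      exact hs
  · -- adj
    intro x y hx1 hadj hne
    have hreg : reg x ≠ reg y := by
      intro hxy
      apply hne
      have hyx : y ∈ reg x := by rw [hxy]; exact hz.mem y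
      by_cases hx : ab x
      · obtain ⟨hay, hb⟩ := F2 x y hx (F2'' x y hx hyx)
        rw [if_pos hx, if_pos hay, hb]
      · rw [if_neg hx, if_neg (F2' x y hx hyx), hxy]
    by_cases hlx : 1 ≤ lev x
    · exact hz.adj x y hlx hadj hreg
    · have hl0x : lev x = 0 := by omega
      have hax : ab x := by
        by_contra hcon
        rw [if_neg hcon] at hx1
        omega
      intro hF
      have hFJ := hz.res x hl0x hF
      -- contradiction from a close boundary
      have hstar : ∀ b₂, b₂ ∉ Yc (bl l x) → ¬ sn (bl l x - b₂) ≤ 1 := by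
        intro b₂ hb2 hd
        obtain ⟨z', hz1, hz2, hn1, hn2⟩ := Fn (bl l x) (bl l x) b₂ hax.1 hb2 1 hd
        have hcl := (hhs z' hz2).2.2.2.1 x
        rw [← hldef] at hcl
        have hdist : sn (x - z') ≤ 2 * P.A (J + 1) := by
          have h8 := sn_le_bl hl x z'
          have h9 := hrad z' hz2
          have h10 : l * sn (bl l x - bl l z') ≤ l * (hh z' + 1) := Nat.mul_le_mul_left _ hn2
          nlinarith
        have hfin := hcl hdist (by simpa using hFJ)
        omega
      have hxy2 : sn (x - y) ≤ 2 * P.l 0 := by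
        have h5 := sn_le_bl hl0 x y
        have h6 := sn_of_adj hadj
        nlinarith
      have hclose : ∀ w, 2 * sn (x - w) ≤ l → sn (bl l x - bl l w) ≤ 1 := by
        intro w hw
        have h5 := sn_bl_mul_le hl x w
        by_contra hcon
        push Not at hcon
        have h6 : 2 * l ≤ sn (bl l x - bl l w) * l := Nat.mul_le_mul_right _ hcon
        omega
      by_cases hyY : bl l y ∈ Yc (bl l x)
      · by_cases hin : ∀ y' ∈ reg y, bl l y' ∈ Yc (bl l x)
        · apply hne
          have hyb : y ∈ big l reg Yc x := (mem_big hl).2 ⟨hyY, hin⟩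
          obtain ⟨hay, hb⟩ := F2 x y hax hyb
          rw [if_pos hax, if_pos hay, hb]
        · push Not at hin
          obtain ⟨y', hy', hy'Y⟩ := hin
          have h7 := F4 (bl l x) y y y' (hz.mem y) hy' hyY hy'Y
          refine hstar _ hy'Y (hclose y' ?_)
          have h8 := sn_sub_le x y y'
          omega
      · refine hstar _ hyY (hclose y ?_)
        omega
  · -- zone
    intro x hx1
    by_cases hx : ab x
    · rw [if_pos hx, if_pos hx]
      obtain ⟨p, ⟨z, hz1, hz2, rfl⟩, hp⟩ := (o1 _ (hcov _ _ hx.1)).2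
      simp only at hp
      have hr := hrad z hz2
      refine ⟨z, Yc (bl l x), le_rfl, by simpa using hz1, hz2, ?_, o3 _, ?_, ?_, ?_, ?_⟩
      · intro y hy
        rw [mem_big hl] at hy
        have h5 := hp _ hy.1
        have h6 := sn_le_bl hl y z
        have h7 : l * sn (bl l y - bl l z) ≤ l * hh z := Nat.mul_le_mul_left _ h5
        rw [← hldef]
        nlinarith
      · intro b hb
        have h5 := hp _ hb
        rw [← hldef]
        have h7 : sn (b - bl l z) * l ≤ hh z * l := Nat.mul_le_mul_right _ h5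
        omega
      · intro y hy
        rw [mem_big hl] at hy
        exact hy.1
      · intro y hyY hyn
        have hyn' : ¬ ∀ y' ∈ reg y, bl l y' ∈ Yc (bl l x) := fun h => hyn ((mem_big hl).2 ⟨hyY, h⟩)
        push Not at hyn'
        obtain ⟨y', hy', hy'Y⟩ := hyn'
        exact ⟨y', hy'Y, F4 (bl l x) y y y' (hz.mem y) hy' hyY hy'Y⟩
      · intro b hb b' hb' hK
        obtain ⟨z', hz1', hz2', hn1, hn2⟩ := Fn (bl l x) b b' hb hb' _ hK
        exact (hhs z' hz2').2.2.1 b (by rw [← hldef]; omega) (by rw [← hldef]; omega)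
    · rw [if_neg hx] at hx1
      rw [if_neg hx, if_neg hx]
      obtain ⟨z, Y, h5, h6⟩ := hz.zone x hx1
      exact ⟨z, Y, by omega, h6⟩

end Pool.Agent.H47.MC
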