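import Pool.Agent.H96.MC.Targets
import Pool.Agent.H96.MC.Targets2
import Pool.Agent.H47.MC.ZONS
import Pool.Agent.H47.MC.OWN

/-!
# MP_5da387_pr, module REGJ: matching of a region of level `j`
-/

namespace Pool.Agent.H47.MC.REGJ

open Pool.Agent.H96.MC ZONS

variable {d q : ℕ}

/-- corner of a base block -/
def tc (l0 : ℕ) (b : Cell d) : Cell d := fun i => (l0 : ℤ) * b i

theorem bl_tc {l0 : ℕ} (h : 1 ≤ l0) (b : Cell d) : bl l0 (tc l0 b) = b := by
  funext i
  simp only [bl, tc]
  have : (l0 : ℤ) ≠ 0 := by positivity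
  exact Int.mul_ediv_cancel_left _ this

theorem bl_mul_tc {l0 k : ℕ} (h : 1 ≤ l0) (b : Cell d) : bl (l0 * k) (tc l0 b) = bl k b := by
  funext i
  simp only [bl, tc]
  push_cast
  exact Int.mul_ediv_mul_of_pos _ _ (by exact_mod_cast h)

theorem mem_nb {b b' : Cell d} : b' ∈ nb b ↔ Adj b b' := by
  unfold nb
  simp only [Finset.mem_filter, mem_cube]
  constructor
  · exact fun h => h.2
  · intro h
    refine ⟨?_, h⟩
    rw [sn_sub_comm]
    exact sn_of_adj h

theorem adj_form {b b' : Cell d} (h : Adj b b') :
    ∃ i : Fin d, ∃ s : ℤ, (s = 1 ∨ s = -1) ∧ b' = b + Pi.single i s := by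
  unfold Adj at h
  have h1 : ∃ i, (b i - b' i).natAbs ≠ 0 := by
    by_contra hcon
    push Not at hcon
    rw [Finset.sum_eq_zero (fun i _ => hcon i)] at h
    omega
  obtain ⟨i, hi⟩ := h1
  have h2 : ∑ j ∈ Finset.univ.erase i, (b j - b' j).natAbs + (b i - b' i).natAbs = 1 := by
    rw [Finset.sum_erase_add _ _ (Finset.mem_univ i)]
    exact h
  have h3 : ∀ j, j ≠ i → (b j - b' j).natAbs = 0 := by
    intro j hj
    have h4 : (b j - b' j).natAbs ≤ ∑ j ∈ Finset.univ.erase i, (b j - b' j).natAbs :=
      Finset.single_le_sum (f := fun j => (b j - b' j).natAbs) (fun _ _ => Nat.zero_le _)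
        (Finset.mem_erase.2 ⟨hj, Finset.mem_univ j⟩)
    omega
  refine ⟨i, b' i - b i, by omega, ?_⟩
  funext j
  by_cases hj : j = i
  · subst hj
    simp
  · have := h3 j hj
    simp only [Pi.add_apply, Pi.single_apply, if_neg hj]
    omega

theorem card_nb (b : Cell d) : (nb b).card ≤ 2 * d := by
  classical
  have h1 : nb b ⊆ (Finset.univ : Finset (Fin d × Bool)).image
      (fun p => b + Pi.single p.1 (if p.2 then (1 : ℤ) else -1)) := by
    intro b' hb'
    rw [mem_nb] at hb'
    obtain ⟨i, s, hs, rfl⟩ := adj_form hb'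
    rw [Finset.mem_image]
    rcases hs with rfl | rfl
    · exact ⟨(i, true), Finset.mem_univ _, by simp⟩
    · exact ⟨(i, false), Finset.mem_univ _, by simp⟩
  refine (Finset.card_le_card h1).trans (Finset.card_image_le.trans ?_)
  simp [Fintype.card_prod]
  omega

/-- evaluation of a pushed pattern -/
theorem push_apply (g : Cell d → Cell d) (u : Pat d q) (F : Finset (Cell d))
    (hF : ∀ x ∈ u.support, x.1 ∈ F) (b : Cell d) (i : Fin q) :
    (push g u) (b, i) = ∑ x ∈ F.filter (fun x => g x = b), u (x, i) := by
  classical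
  have h1 : u.support ⊆ F ×ˢ (Finset.univ : Finset (Fin q)) := by
    intro x hx
    rw [Finset.mem_product]
    exact ⟨hF x hx, Finset.mem_univ _⟩
  unfold push Finsupp.mapDomain
  rw [Finsupp.sum_apply, Finsupp.sum_of_support_subset _ h1 _ (by intro x _; simp)]
  rw [Finset.sum_product, Finset.sum_filter]
  refine Finset.sum_congr rfl fun x _ => ?_
  simp only [Finsupp.single_apply, Prod.mk.injEq]
  by_cases hx : g x = b
  · simp [hx]
  · simp [hx]

/-- evaluation of a concentrated pattern -/
theorem conc_apply (c : Cell d) (u : Pat d q) (b : Cell d) (i : Fin q) :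
    (u.mapDomain (fun x => (c, x.2))) (b, i) = if c = b then tot u i else 0 := by
  classical
  unfold Finsupp.mapDomain tot
  rw [Finsupp.sum_apply]
  simp only [Finsupp.single_apply, Prod.mk.injEq]
  by_cases hc : c = b
  · simp [hc]
  · simp [hc, Finsupp.sum]

theorem tot_mapDomain {ι : Type} (α β : ι → Cell d) (κ : ι → Fin q) (U : ι →₀ ℕ) :
    tot (U.mapDomain (fun t => (α t, κ t))) = tot (U.mapDomain (fun t => (β t, κ t))) := by
  induction U using Finsupp.induction_linear with
  | zero => simp
  | add f g hf hg => rw [Finsupp.mapDomain_add, Finsupp.mapDomain_add, tot_add, tot_add, hf, hg]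
  | single a b =>
    rw [Finsupp.mapDomain_single, Finsupp.mapDomain_single, tot_single, tot_single]

/-- the shell criterion -/
theorem mem_shell {l w : ℕ} (hl : 1 ≤ l) {b y y'' : Cell d} (hy : y ∈ cellsOf l b)
    (hy'' : bl l y'' ≠ b) (hs : sn (y - y'') ≤ w) : y ∈ shellOf l w b := by
  unfold shellOf
  rw [Finset.mem_filter]
  refine ⟨hy, ?_⟩
  by_contra hcon
  push Not at hcon
  apply hy''
  rw [← mem_cellsOf hl]
  simp only [cellsOf, Fintype.mem_piFinset, Finset.mem_Ico]
  intro i
  have h1 := hcon i
  have h2 := natAbs_le_sn (y - y'') i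
  simp only [Pi.sub_apply] at h2
  omega

end Pool.Agent.H47.MC.REGJ

namespace Pool.Agent.H47.MC

open Pool.Agent.H96.MC ZONS REGJ

theorem regj (h : T_LIFT) : T_REGJ := by
  classical
  intro d q D η c₁ E P hd hAL hP n o j z Y R hj hMv hFF hRu hYc hYA hRY hYR hcol hLat
  have hl0 : 1 ≤ P.l 0 := hP.lpos 0
  have hl : 1 ≤ P.l j := hP.lpos j
  obtain ⟨k, hk⟩ := hP.dvd j
  have hwl := hP.wl j hj
  have hwk := hP.wk j hj
  have hbig := hP.lbig j hj
  have hη := hAL.1
  -- the good event
  have hGG : GG D P η n j z (FF D P η n) := by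
    obtain ⟨j', rfl⟩ : ∃ j', j = j' + 1 := ⟨j - 1, by omega⟩
    rw [FF_succ] at hFF
    push Not at hFF
    exact hFF
  set l0 := P.l 0 with hl0def
  set l := P.l j with hldef
  set w := P.w j with hwdef
  set BR := R.image (bl l0) with hBR
  have hk1 : 1 ≤ k := by
    rcases Nat.eq_zero_or_pos k with h0 | h0
    · subst h0; omega
    · exact h0
  -- base blocks and R
  have hmemR : ∀ x, bl l0 x ∈ BR → x ∈ R := by
    intro x hx
    rw [hBR, Finset.mem_image] at hx
    obtain ⟨y, hy, hyx⟩ := hx
    exact hRu y hy x hyx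
  have htc : ∀ b ∈ BR, tc l0 b ∈ R := by
    intro b hb
    apply hmemR
    rw [bl_tc hl0]
    exact hb
  have hblbase : ∀ x y : Cell d, bl l0 x = bl l0 y → bl l x = bl l y :=
    fun x y hxy => bl_of_base hl0 ⟨k, hk⟩ hxy
  -- closeness
  have hclose : ∀ x y : Cell d, 2 * sn (x - y) ≤ l → sn (bl l x - bl l y) ≤ 1 := by
    intro x y hw
    have h5 := sn_bl_mul_le hl x y
    by_contra hcon
    push Not at hcon
    have h6 : 2 * l ≤ sn (bl l x - bl l y) * l := Nat.mul_le_mul_right _ hcon
    omega
  have hadjcell : ∀ x y : Cell d, Adj (bl l0 x) (bl l0 y) → sn (x - y) ≤ 2 * l0 := by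
    intro x y hxy
    have h5 := sn_le_bl hl0 x y
    have h6 := sn_of_adj hxy
    nlinarith
  -- a cell whose base block has a missing neighbour is near the outside of Y
  have hout : ∀ x b', bl l0 x ∈ BR → b' ∈ nb (bl l0 x) → b' ∉ BR →
      ∃ y'', bl l y'' ∉ Y ∧ 2 * sn (x - y'') ≤ 4 * l0 + w := by
    intro x b' _ hb' hb'2
    rw [mem_nb] at hb'
    have hy' : tc l0 b' ∉ R := by
      intro hcon
      apply hb'2
      rw [hBR, Finset.mem_image]
      exact ⟨_, hcon, bl_tc hl0 b'⟩
    have hs : sn (x - tc l0 b') ≤ 2 * l0 := hadjcell _ _ (by rw [bl_tc hl0]; exact hb')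
    by_cases hY : bl l (tc l0 b') ∈ Y
    · obtain ⟨y'', h1, h2⟩ := hYR _ hY hy'
      refine ⟨y'', h1, ?_⟩
      have h3 := sn_sub_le x (tc l0 b') y''
      omega
    · exact ⟨_, hY, by omega⟩
  -- the patterns
  set A : Pat d q := rst n R - outP l0 o R with hA
  set U : (CC d q × Cell d) →₀ ℕ := A.mapDomain (fun x => (x, x.1)) +
    ∑ b ∈ BR, ∑ b' ∈ (nb b).filter (fun b' => b' ∉ BR), (o b' b).mapDomain (fun x => (x, tc l0 b))
    with hU
  have hU1 : U.mapDomain (fun s => (s.1.1, s.1.2)) = regP l0 n o R := by
    rw [hU, Finsupp.mapDomain_add, Finsupp.mapDomain_finset_sum, ← Finsupp.mapDomain_comp]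
    unfold regP
    congr 1
    · exact Finsupp.mapDomain_id
    · unfold inP
      refine Finset.sum_congr rfl fun b _ => ?_
      rw [Finsupp.mapDomain_finset_sum]
      refine Finset.sum_congr rfl fun b' _ => ?_
      rw [← Finsupp.mapDomain_comp]
      exact Finsupp.mapDomain_id
  set v : Pat d q := U.mapDomain (fun s => (bl l s.2, s.1.2)) with hv
  have hv1 : v = push (bl l) A + ∑ b ∈ BR, ∑ b' ∈ (nb b).filter (fun b' => b' ∉ BR),
      (o b' b).mapDomain (fun x => (bl l (tc l0 b), x.2)) := by
    rw [hv, hU, Finsupp.mapDomain_add, Finsupp.mapDomain_finset_sum, ← Finsupp.mapDomain_comp]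
    congr 1
    refine Finset.sum_congr rfl fun b _ => ?_
    rw [Finsupp.mapDomain_finset_sum]
    refine Finset.sum_congr rfl fun b' _ => ?_
    rw [← Finsupp.mapDomain_comp]
    rfl
  -- support of A
  have hAR : ∀ x ∈ A.support, x.1 ∈ R := by
    intro x hx
    rw [Finsupp.mem_support_iff, hA, Finsupp.tsub_apply, rst_apply] at hx
    by_contra hcon
    rw [if_neg hcon] at hx
    simp at hx
  -- evaluation of v
  have hveval : ∀ b i, v (b, i) = ∑ x ∈ R.filter (fun x => bl l x = b), A (x, i) +
      ∑ β ∈ BR, ∑ β' ∈ (nb β).filter (fun b' => b' ∉ BR),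
        (if bl l (tc l0 β) = b then tot (o β' β) i else 0) := by
    intro b i
    rw [hv1, Finsupp.add_apply, push_apply (bl l) A R hAR, Finsupp.finset_sum_apply]
    congr 1
    refine Finset.sum_congr rfl fun β _ => ?_
    rw [Finsupp.finset_sum_apply]
    refine Finset.sum_congr rfl fun β' _ => ?_
    rw [conc_apply]
  -- support of U
  have hUs : ∀ s ∈ U.support, s.2 ∈ R ∧ sn (s.1.1 - s.2) ≤ 2 * l0 := by
    intro s hs
    rw [hU] at hs
    have hs2 := Finsupp.support_add hs
    rw [Finset.mem_union] at hs2
    rcases hs2 with hs2 | hs2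
    · have hs3 := Finsupp.mapDomain_support hs2
      rw [Finset.mem_image] at hs3
      obtain ⟨x, hx, rfl⟩ := hs3
      refine ⟨hAR x hx, ?_⟩
      simp [sn_zero]
    · have hs3 := Finsupp.support_finset_sum hs2
      rw [Finset.mem_biUnion] at hs3
      obtain ⟨b, hb, hs4⟩ := hs3
      have hs5 := Finsupp.support_finset_sum hs4
      rw [Finset.mem_biUnion] at hs5
      obtain ⟨b', hb', hs6⟩ := hs5
      have hs7 := Finsupp.mapDomain_support hs6
      rw [Finset.mem_image] at hs7
      obtain ⟨x, hx, rfl⟩ := hs7
      refine ⟨htc b hb, ?_⟩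
      rw [Finset.mem_filter, mem_nb] at hb'
      apply hadjcell
      rw [bl_tc hl0, hMv.src b' b x hx]
      exact OWN.adj_comm hb'.1
  -- A at a cell
  have hAle : ∀ x, A x ≤ n x := by
    intro x
    rw [hA, Finsupp.tsub_apply, rst_apply]
    split_ifs <;> omega
  have houtP0 : ∀ x i, (∀ b' ∈ nb (bl l0 x), b' ∈ BR) → (outP l0 o R) (x, i) = 0 := by
    intro x i hx
    unfold outP
    rw [Finsupp.finset_sum_apply]
    refine Finset.sum_eq_zero fun b _ => ?_
    rw [Finsupp.finset_sum_apply]
    refine Finset.sum_eq_zero fun b' hb' => ?_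
    rw [Finset.mem_filter] at hb'
    by_contra hcon
    have h1 := hMv.src b b' (x, i) (Finsupp.mem_support_iff.2 hcon)
    simp only at h1
    subst h1
    exact hb'.2 (hx b' hb'.1)
  have hAeq : ∀ x i, x ∈ R → (∀ b' ∈ nb (bl l0 x), b' ∈ BR) → A (x, i) = n (x, i) := by
    intro x i hxR hx
    rw [hA, Finsupp.tsub_apply, rst_apply, houtP0 x i hx]
    simp [hxR]
  -- block counts
  have hbc : ∀ b i, bc l n (b, i) = ∑ x ∈ cellsOf l b, n (x, i) := fun _ _ => rfl
  have hRf : ∀ b, R.filter (fun x => bl l x = b) ⊆ cellsOf l b := by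
    intro b x hx
    rw [Finset.mem_filter] at hx
    exact (mem_cellsOf hl).2 hx.2
  have hrl := hP.rl j hj
  have hfinal : v ∈ Tl D.V (P.N j : ℝ) := by
    apply hrl Y (bc l n) v (fun b => Typ D η w l n b) hYc
    · -- support of v
      intro x hx
      have hx2 := Finsupp.mapDomain_support hx
      rw [Finset.mem_image] at hx2
      obtain ⟨s, hs, rfl⟩ := hx2
      exact hRY _ (hUs s hs).1
    · intro b hb
      exact hb.1
    · -- number of atypical blocks
      have h1 := hGG.1
      refine le_trans ?_ h1
      rw [← Set.ncard_coe_finset]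
      apply Set.ncard_le_ncard
      · intro b hb
        rw [Finset.mem_coe, Finset.mem_filter] at hb
        have h2 := hYA b hb.1
        refine ⟨?_, hb.2⟩
        show sn (b - bl l z) * l ≤ 2 * P.A j
        omega
      · refine (cube (bl l z) (2 * P.A j)).finite_toSet.subset ?_
        rintro b ⟨hb, -⟩
        rw [Finset.mem_coe, mem_cube]
        have : sn (b - bl l z) * 1 ≤ sn (b - bl l z) * l := Nat.mul_le_mul_left _ hl
        have hb' : sn (b - bl l z) * l ≤ 2 * P.A j := hb
        omega
    · exact hcol
    · -- interior blocks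
      intro b _ hball i
      have hcells : ∀ y ∈ cellsOf l b, y ∈ R := by
        intro y hy
        rw [mem_cellsOf hl] at hy
        by_contra hyR
        have hyY : bl l y ∈ Y := by
          rw [hy]
          exact hball b (by rw [sub_self, sn_zero]; omega)
        obtain ⟨y', h1, h2⟩ := hYR y hyY hyR
        apply h1
        apply hball
        rw [← hy]
        apply hclose
        omega
      have hnbr : ∀ y, bl l y = b → bl l0 y ∈ BR → ∀ b' ∈ nb (bl l0 y), b' ∈ BR := by
        intro y hy hyB b' hb'
        by_contra hcon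
        obtain ⟨y'', h1, h2⟩ := hout y b' hyB hb' hcon
        apply h1
        apply hball
        rw [← hy]
        apply hclose
        omega
      rw [hveval, hbc]
      have e1 : R.filter (fun x => bl l x = b) = cellsOf l b := by
        apply Finset.Subset.antisymm (hRf b)
        intro x hx
        rw [Finset.mem_filter]
        exact ⟨hcells x hx, (mem_cellsOf hl).1 hx⟩
      have e2 : ∑ β ∈ BR, ∑ β' ∈ (nb β).filter (fun b' => b' ∉ BR),
          (if bl l (tc l0 β) = b then tot (o β' β) i else 0) = 0 := by
        refine Finset.sum_eq_zero fun β hβ => Finset.sum_eq_zero fun β' hβ' => ?_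
        rw [Finset.mem_filter] at hβ'
        rw [if_neg]
        intro hcon
        apply hβ'.2
        apply hnbr (tc l0 β) hcon
        · rw [bl_tc hl0]; exact hβ
        · rw [bl_tc hl0]; exact hβ'.1
      rw [e1, e2, add_zero]
      refine Finset.sum_congr rfl fun x hx => ?_
      have hxR := hcells x hx
      apply hAeq x i hxR
      apply hnbr x ((mem_cellsOf hl).1 hx)
      rw [hBR, Finset.mem_image]
      exact ⟨x, hxR, rfl⟩
    · -- typical blocks stay fat
      intro b hbY hty i
      have hT1 := hty.1 i
      have hT2 := hty.2 i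
      have hlam := D.pos i
      -- lower bound
      have hlow : bc l n (b, i) ≤ v (b, i) + ∑ x ∈ shellOf l w b, n (x, i) := by
        rw [hveval, hbc]
        have hsh : shellOf l w b ⊆ cellsOf l b := by
          unfold shellOf
          exact Finset.filter_subset _ _
        rw [← Finset.sum_sdiff hsh]
        have h1 : ∑ x ∈ cellsOf l b \ shellOf l w b, n (x, i) ≤
            ∑ x ∈ R.filter (fun x => bl l x = b), A (x, i) := by
          have h2 : ∀ x ∈ cellsOf l b \ shellOf l w b, x ∈ R ∧ A (x, i) = n (x, i) := by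
            intro x hx
            rw [Finset.mem_sdiff] at hx
            have hxb := (mem_cellsOf hl).1 hx.1
            have hxR : x ∈ R := by
              by_contra hcon
              obtain ⟨y', h3, h4⟩ := hYR x (by rw [hxb]; exact hbY) hcon
              apply hx.2
              refine mem_shell hl hx.1 ?_ (y'' := y') (by omega)
              intro h5
              rw [h5] at h3
              exact h3 hbY
            have hxB : bl l0 x ∈ BR := by
              rw [hBR, Finset.mem_image]
              exact ⟨x, hxR, rfl⟩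
            refine ⟨hxR, hAeq x i hxR ?_⟩
            intro b' hb'
            by_contra hcon
            obtain ⟨y'', h3, h4⟩ := hout x b' hxB hb' hcon
            apply hx.2
            refine mem_shell hl hx.1 ?_ (y'' := y'') (by omega)
            intro h5
            rw [h5] at h3
            exact h3 hbY
          calc ∑ x ∈ cellsOf l b \ shellOf l w b, n (x, i)
              = ∑ x ∈ cellsOf l b \ shellOf l w b, A (x, i) :=
                Finset.sum_congr rfl fun x hx => ((h2 x hx).2).symm
            _ ≤ ∑ x ∈ R.filter (fun x => bl l x = b), A (x, i) := by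
                apply Finset.sum_le_sum_of_subset
                intro x hx
                rw [Finset.mem_filter]
                refine ⟨(h2 x hx).1, ?_⟩
                rw [Finset.mem_sdiff] at hx
                exact (mem_cellsOf hl).1 hx.1
        omega
      -- upper bound
      have hup : v (b, i) ≤ bc l n (b, i) + k ^ d * (2 * d * E) := by
        rw [hveval, hbc]
        have h1 : ∑ x ∈ R.filter (fun x => bl l x = b), A (x, i) ≤
            ∑ x ∈ cellsOf l b, n (x, i) :=
          (Finset.sum_le_sum fun x _ => hAle (x, i)).trans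
            (Finset.sum_le_sum_of_subset (hRf b))
        have h2 : ∑ β ∈ BR, ∑ β' ∈ (nb β).filter (fun b' => b' ∉ BR),
            (if bl l (tc l0 β) = b then tot (o β' β) i else 0) ≤ k ^ d * (2 * d * E) := by
          have h3 : ∀ β ∈ BR, ∑ β' ∈ (nb β).filter (fun b' => b' ∉ BR),
              (if bl l (tc l0 β) = b then tot (o β' β) i else 0) ≤
              if bl l (tc l0 β) = b then 2 * d * E else 0 := by
            intro β _
            by_cases hc : bl l (tc l0 β) = b
            · rw [if_pos hc]
              calc ∑ β' ∈ (nb β).filter (fun b' => b' ∉ BR),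
                    (if bl l (tc l0 β) = b then tot (o β' β) i else 0)
                  ≤ ∑ β' ∈ (nb β).filter (fun b' => b' ∉ BR), E := by
                    apply Finset.sum_le_sum
                    intro β' _
                    rw [if_pos hc]
                    exact hMv.le _ _ _
                _ = ((nb β).filter (fun b' => b' ∉ BR)).card * E := by
                    rw [Finset.sum_const, smul_eq_mul]
                _ ≤ 2 * d * E :=
                    Nat.mul_le_mul_right _ ((Finset.card_filter_le _ _).trans (card_nb β))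
            · rw [if_neg hc]
              apply le_of_eq
              exact Finset.sum_eq_zero fun β' _ => by rw [if_neg hc]
          calc _ ≤ ∑ β ∈ BR, (if bl l (tc l0 β) = b then 2 * d * E else 0) :=
                Finset.sum_le_sum h3
            _ = (BR.filter (fun β => bl l (tc l0 β) = b)).card * (2 * d * E) := by
                rw [← Finset.sum_filter, Finset.sum_const, smul_eq_mul]
            _ ≤ (cellsOf k b).card * (2 * d * E) := by
                apply Nat.mul_le_mul_right
                apply Finset.card_le_card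
                intro β hβ
                rw [Finset.mem_filter] at hβ
                rw [mem_cellsOf hk1]
                rw [hk, bl_mul_tc hl0] at hβ
                exact hβ.2
            _ = k ^ d * (2 * d * E) := by rw [card_cellsOf]
        omega
      have hl0E := hP.l0E i
      rw [← hl0def] at hl0E
      have hkd : (k : ℝ) ^ d * (2 * d * E) ≤ (η / 4) * ((l : ℝ) ^ d) * D.lam i := by
        have e : (l : ℝ) ^ d = (l0 : ℝ) ^ d * (k : ℝ) ^ d := by
          rw [hk]
          push_cast
          rw [mul_pow]
        rw [e]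
        have hkpos : (0 : ℝ) ≤ (k : ℝ) ^ d := by positivity
        have h1 := mul_le_mul_of_nonneg_left hl0E hkpos
        nlinarith [h1]
      have hlowR : (bc l n (b, i) : ℝ) ≤ (v (b, i) : ℝ) +
          ((∑ x ∈ shellOf l w b, n (x, i) : ℕ) : ℝ) := by exact_mod_cast hlow
      have hupR : (v (b, i) : ℝ) ≤ (bc l n (b, i) : ℝ) + (k : ℝ) ^ d * (2 * d * E) := by
        exact_mod_cast hup
      rw [abs_le] at hT1 ⊢
      have hL : 0 ≤ (l : ℝ) ^ d * D.lam i := by positivity
      have hηL : 0 ≤ η * ((l : ℝ) ^ d * D.lam i) := by positivity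
      constructor
      · nlinarith [hT1.1, hT2]
      · nlinarith [hT1.2]
    · -- good windows at atypical blocks
      intro c hc _ i hi hring g
      apply hGG.2.1 c _ i hi hring g
      have h2 := hYA c hc
      rw [← hldef]
      omega
    · rw [hv, tot_mapDomain (fun s => bl l s.2) (fun s => s.1.1) (fun s => s.1.2) U, hU1]
      exact hLat
  have hlift := h d q D.V (P.N j : ℝ) (P.R d j) (CC d q × Cell d) (fun s => s.1.1)
    (fun s => bl l s.2) (fun s => s.1.2) U ?_ hfinal
  · rw [hU1] at hlift
    exact hlift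
  · intro s hs t ht hst
    have h1 := (hUs s hs).2
    have h2 := (hUs t ht).2
    have h3 : nrm (s.1.1 - s.2) ≤ d * (2 * l0) := by
      refine (nrm_le_sn _).trans ?_
      have : ((sn (s.1.1 - s.2) : ℕ) : ℝ) ≤ 2 * l0 := by exact_mod_cast h1
      exact mul_le_mul_of_nonneg_left this (by positivity)
    have h4 : nrm (t.1.1 - t.2) ≤ d * (2 * l0) := by
      refine (nrm_le_sn _).trans ?_
      have : ((sn (t.1.1 - t.2) : ℕ) : ℝ) ≤ 2 * l0 := by exact_mod_cast h2
      exact mul_le_mul_of_nonneg_left this (by positivity)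
    have h5 := nrm_le_bl hl s.2 t.2
    have h6 := nrm_sub_le s.1.1 s.2 t.1.1
    have h7 := nrm_sub_le s.2 t.2 t.1.1
    have h8 := nrm_sub_comm t.2 t.1.1
    have hbigR : (8 : ℝ) * d * l0 ≤ l := by exact_mod_cast hbig
    have hlpos : (0 : ℝ) < l := by exact_mod_cast hl
    show nrm (s.1.1 - t.1.1) ≤ P.R d j
    unfold Par.R
    rw [← hldef]
    have h9 : (l : ℝ) * (nrm (bl l s.2 - bl l t.2) + d) ≤ l * (P.N j + d) := by
      apply mul_le_mul_of_nonneg_left _ hlpos.le
      linarith [hst]
    nlinarith

end Pool.Agent.H47.MC
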