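import Pool.Agent.H79.MC.Targets2

/-!
Polynomial space algorithms for maximum cut, module TH3: near-regular graphs with few triangles.
-/

set_option autoImplicit false

namespace Pool.Agent.H79.MC

theorem th3_cutSize_le {n : ℕ} (G : SimpleGraph (Fin n)) (X : Set (Fin n)) :
    cutSize G X ≤ edges G := by
  unfold cutSize edges
  apply Set.ncard_le_ncard
  · intro e he
    exact he.1
  · exact Set.toFinite _

theorem pf_th3 (hTH2 : T_TH2) (hTRI : T_TRI) (_hMCB : T_MCB) : T_TH3 := by
  intro K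
  obtain ⟨κ, hκ, hrob⟩ := hTRI (max K 1) (le_max_right _ _)
  obtain ⟨γ, C, p, hγ, hsol⟩ := hTH2 κ hκ
  refine ⟨γ, C, p, hγ, ?_⟩
  intro n G
  obtain ⟨t, s, hrun, ht, hmax⟩ := hsol n G
  refine ⟨t, s, hrun, ht, ?_⟩
  rintro ⟨hreg, htri⟩
  by_cases h0 : edges G = 0
  · intro Y
    have := th3_cutSize_le G Y
    omega
  · have h1 : 1 ≤ edges G := Nat.one_le_iff_ne_zero.mpr h0
    refine hmax (hrob n G h1 ?_ ?_)
    · intro v
      refine (hreg v).trans ?_
      have : (0 : ℝ) ≤ 2 * (edges G : ℝ) := by positivity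
      exact mul_le_mul_of_nonneg_right (le_max_left _ _) this
    · refine htri.trans ?_
      have h2 : (0 : ℝ) ≤ (2 * (edges G : ℝ) / n) ^ ((3 : ℝ) / 2) := by positivity
      have h3 : (0 : ℝ) ≤ (n : ℝ) := by positivity
      have := mul_le_mul_of_nonneg_right
        (mul_le_mul_of_nonneg_right (le_max_left K 1) h3) h2
      exact this

end Pool.Agent.H79.MC
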