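import Pool.Agent.H79.MC.Targets2

/-!
Polynomial space algorithms for maximum cut, module TH5: near-regular graphs with a large surplus.
-/

set_option autoImplicit false

namespace Pool.Agent.H79.MC

theorem th5_cutSize_le {n : ℕ} (G : SimpleGraph (Fin n)) (X : Set (Fin n)) :
    cutSize G X ≤ edges G := by
  unfold cutSize edges
  apply Set.ncard_le_ncard
  · intro e he
    exact he.1
  · exact Set.toFinite _

open Classical in
theorem th5_phi_ge {n : ℕ} (G : SimpleGraph (Fin n)) (z : Fin n → ℝ) :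
    -∑ v, (degr G v : ℝ) * z v ^ 2 ≤ phi G z := by
  have h1 : ∀ u v, -((if G.Adj u v then z u ^ 2 else 0) + (if G.Adj u v then z v ^ 2 else 0)) / 2 ≤
      (if G.Adj u v then z u * z v else 0) := by
    intro u v
    by_cases h : G.Adj u v
    · simp only [h, if_true]
      nlinarith [sq_nonneg (z u + z v)]
    · simp [h]
  have h2 : ∑ u, ∑ v, -((if G.Adj u v then z u ^ 2 else 0) +
      (if G.Adj u v then z v ^ 2 else 0)) / 2 ≤ phi G z := by
    unfold phi
    exact Finset.sum_le_sum fun u _ => Finset.sum_le_sum fun v _ => h1 u v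
  refine le_trans (le_of_eq ?_) h2
  have h3 : ∑ u, ∑ v, (if G.Adj u v then z u ^ 2 else 0) = ∑ u, (degr G u : ℝ) * z u ^ 2 := by
    refine Finset.sum_congr rfl fun u _ => ?_
    rw [← Finset.sum_filter, Finset.sum_const, nsmul_eq_mul]
    rfl
  have h4 : ∑ u, ∑ v, (if G.Adj u v then z v ^ 2 else 0) = ∑ u, (degr G u : ℝ) * z u ^ 2 := by
    rw [Finset.sum_comm, ← h3]
    refine Finset.sum_congr rfl fun u _ => Finset.sum_congr rfl fun v _ => ?_
    simp only [G.adj_comm]
  have h5 : ∑ u, ∑ v, -((if G.Adj u v then z u ^ 2 else 0) +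
      (if G.Adj u v then z v ^ 2 else 0)) / 2 =
      -(∑ u, ∑ v, (if G.Adj u v then z u ^ 2 else 0) +
        ∑ u, ∑ v, (if G.Adj u v then z v ^ 2 else 0)) / 2 := by
    rw [← Finset.sum_add_distrib, ← Finset.sum_neg_distrib, Finset.sum_div]
    refine Finset.sum_congr rfl fun u _ => ?_
    rw [← Finset.sum_add_distrib, ← Finset.sum_neg_distrib, Finset.sum_div]
  rw [h5, h3, h4]
  ring

theorem th5_robust {K κ : ℝ} (hK : 0 < K) (hκ : 0 < κ)
    (hκK : κ * (2 * K + Real.sqrt (2 * K)) ≤ 4 / K) {n : ℕ} (G : SimpleGraph (Fin n))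
    (h1 : 1 ≤ edges G) (hreg : NearRegular K G)
    (hmc : (1 / 2 + 1 / K) * (edges G : ℝ) ≤ maxCut G) : Robust κ n G := by
  classical
  intro z _ hz2
  set m : ℝ := (edges G : ℝ) with hm
  have hm1 : (1 : ℝ) ≤ m := by rw [hm]; exact_mod_cast h1
  -- an edge
  obtain ⟨v₀, hv₀⟩ : ∃ v, 1 ≤ degr G v := by
    have hne : (G.edgeSet).Nonempty := by
      by_contra hne
      rw [Set.not_nonempty_iff_eq_empty] at hne
      unfold edges at h1
      rw [hne] at h1
      simp at h1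
    obtain ⟨e, he⟩ := hne
    induction e using Sym2.ind with
    | _ a b =>
      refine ⟨a, ?_⟩
      unfold degr
      rw [Nat.one_le_iff_ne_zero, Finset.card_ne_zero]
      exact ⟨b, by simpa using he⟩
  have hn0 : (0 : ℝ) < n := by
    have : 0 < n := Fin.pos v₀
    exact_mod_cast this
  have hn : (n : ℝ) ≤ 2 * K * m := by
    have h := hreg v₀
    have h' : (1 : ℝ) ≤ degr G v₀ := by exact_mod_cast hv₀
    nlinarith
  have hsq : Real.sqrt (m * n) ≤ Real.sqrt (2 * K) * m := by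
    rw [Real.sqrt_le_left (by positivity)]
    rw [mul_pow, Real.sq_sqrt (by positivity)]
    nlinarith
  have hphi := th5_phi_ge G z
  have hdeg : ∑ v, (degr G v : ℝ) * z v ^ 2 ≤ 2 * K * κ * m := by
    have h2 : ∀ v, (degr G v : ℝ) * z v ^ 2 ≤ (K * (2 * m) / n) * z v ^ 2 := by
      intro v
      apply mul_le_mul_of_nonneg_right _ (sq_nonneg _)
      rw [le_div_iff₀ hn0]
      exact hreg v
    calc ∑ v, (degr G v : ℝ) * z v ^ 2 ≤ ∑ v, (K * (2 * m) / n) * z v ^ 2 :=
          Finset.sum_le_sum fun v _ => h2 v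
      _ = (K * (2 * m) / n) * ∑ v, z v ^ 2 := by rw [Finset.mul_sum]
      _ ≤ (K * (2 * m) / n) * (κ * n) := mul_le_mul_of_nonneg_left hz2 (by positivity)
      _ = 2 * K * κ * m := by field_simp
  have h6 : κ * Real.sqrt (m * n) ≤ κ * (Real.sqrt (2 * K) * m) :=
    mul_le_mul_of_nonneg_left hsq hκ.le
  have h7 : κ * (2 * K + Real.sqrt (2 * K)) * m ≤ 4 / K * m :=
    mul_le_mul_of_nonneg_right hκK (by linarith)
  have h8 : 2 * m - 4 * (maxCut G : ℝ) ≤ -(4 / K * m) := by
    have : (1 / 2 + 1 / K) * m = m / 2 + (4 / K * m) / 4 := by ring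
    rw [this] at hmc
    linarith
  have h9 : κ * (2 * K + Real.sqrt (2 * K)) * m = 2 * K * κ * m + κ * (Real.sqrt (2 * K) * m) := by
    ring
  linarith

theorem pf_th5 (hTH2 : T_TH2) (_hMCB : T_MCB) : T_TH5 := by
  intro K hK
  have hpos : (0 : ℝ) < 2 * K + Real.sqrt (2 * K) := by positivity
  have hκ : (0 : ℝ) < 4 / K / (2 * K + Real.sqrt (2 * K)) := by positivity
  obtain ⟨γ, C, p, hγ, hsol⟩ := hTH2 _ hκ
  refine ⟨γ, C, p, hγ, ?_⟩
  intro n G
  obtain ⟨t, s, hrun, ht, hmax⟩ := hsol n G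
  refine ⟨t, s, hrun, ht, ?_⟩
  rintro ⟨hreg, hmc⟩
  by_cases h0 : edges G = 0
  · intro Y
    have := th5_cutSize_le G Y
    omega
  · have h1 : 1 ≤ edges G := Nat.one_le_iff_ne_zero.mpr h0
    refine hmax (th5_robust hK hκ ?_ G h1 hreg hmc)
    rw [div_mul_cancel₀ _ hpos.ne']

end Pool.Agent.H79.MC
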