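import Pool.Agent.H96.MC.Targets
import Pool.Agent.H96.MC.Targets2
import Pool.Agent.H47.MC.ZONS
import Pool.Agent.H47.MC.OWN
import Pool.Agent.H47.MC.REGJ
import Pool.Agent.H65.MC.MOVE

/-!
# MP_5da387_pr, module WIN: partial matching of a window
-/

namespace Pool.Agent.H47.MC.WIN

open Pool.Agent.H96.MC ZONS REGJ

variable {d q : ℕ}

theorem nb_comm {b b' : Cell d} : b' ∈ nb b ↔ b ∈ nb b' := by
  rw [mem_nb, mem_nb]
  exact ⟨OWN.adj_comm, OWN.adj_comm⟩

theorem outP_apply {l E : ℕ} {n : Cfg d q} {o : Cell d → Cell d → Pat d q} (h : Mv l E n o)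
    (R : Finset (Cell d)) (x : CC d q) :
    outP l o R x = if bl l x.1 ∈ R.image (bl l) then
      ∑ b' ∈ (nb (bl l x.1)).filter (fun b' => b' ∉ R.image (bl l)), o (bl l x.1) b' x else 0 := by
  classical
  have hz : ∀ b b', b ≠ bl l x.1 → o b b' x = 0 := by
    intro b b' hb
    by_contra hcon
    exact hb (h.src b b' x (Finsupp.mem_support_iff.2 hcon)).symm
  unfold outP
  rw [Finsupp.finsetSum_apply]
  by_cases hx : bl l x.1 ∈ R.image (bl l)
  · rw [if_pos hx, Finset.sum_eq_single (bl l x.1)]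
    · rw [Finsupp.finsetSum_apply]
    · intro b _ hb
      rw [Finsupp.finsetSum_apply]
      exact Finset.sum_eq_zero fun b' _ => hz b b' hb
    · intro hcon; exact absurd hx hcon
  · rw [if_neg hx]
    refine Finset.sum_eq_zero fun b hb => ?_
    rw [Finsupp.finsetSum_apply]
    refine Finset.sum_eq_zero fun b' _ => hz b b' ?_
    rintro rfl
    exact hx hb

theorem inP_apply {l E : ℕ} {n : Cfg d q} {o : Cell d → Cell d → Pat d q} (h : Mv l E n o)
    (R : Finset (Cell d)) (x : CC d q) :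
    inP l o R x = if bl l x.1 ∈ R.image (bl l) then 0 else
      ∑ b ∈ (nb (bl l x.1)).filter (fun b => b ∈ R.image (bl l)), o (bl l x.1) b x := by
  classical
  have hz : ∀ b b', b' ≠ bl l x.1 → o b' b x = 0 := by
    intro b b' hb
    by_contra hcon
    exact hb (h.src b' b x (Finsupp.mem_support_iff.2 hcon)).symm
  unfold inP
  rw [Finsupp.finsetSum_apply]
  by_cases hx : bl l x.1 ∈ R.image (bl l)
  · rw [if_pos hx]
    refine Finset.sum_eq_zero fun b _ => ?_
    rw [Finsupp.finsetSum_apply]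
    refine Finset.sum_eq_zero fun b' hb' => hz b b' ?_
    rintro rfl
    exact (Finset.mem_filter.1 hb').2 hx
  · rw [if_neg hx]
    have e : (nb (bl l x.1)).filter (fun b => b ∈ R.image (bl l)) =
        (R.image (bl l)).filter (fun b => bl l x.1 ∈ nb b) := by
      ext b
      rw [Finset.mem_filter, Finset.mem_filter, nb_comm, and_comm]
    rw [e, Finset.sum_filter]
    refine Finset.sum_congr rfl fun b _ => ?_
    rw [Finsupp.finsetSum_apply]
    by_cases hb : bl l x.1 ∈ nb b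
    · rw [if_pos hb, Finset.sum_eq_single (bl l x.1)]
      · intro b' _ hb'
        exact hz b b' hb'
      · intro hcon
        exact absurd (Finset.mem_filter.2 ⟨hb, hx⟩) hcon
    · rw [if_neg hb]
      refine Finset.sum_eq_zero fun b' hb' => hz b b' ?_
      rintro rfl
      exact hb (Finset.mem_filter.1 hb').1

/-- total of the patterns of a family of regions -/
theorem sum_regP {l E : ℕ} (hl : 1 ≤ l) {n : Cfg d q} {o : Cell d → Cell d → Pat d q}
    (h : Mv l E n o) (reg : Cell d → Finset (Cell d)) (S : Finset (Finset (Cell d)))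
    (hmem : ∀ x, x ∈ reg x) (hpart : ∀ R ∈ S, ∀ y ∈ R, reg y = R)
    (hbase : ∀ x y, bl l x = bl l y → reg x = reg y) (x : CC d q) :
    ∑ R ∈ S, regP l n o R x = (if reg x.1 ∈ S then
      (n x - ∑ b' ∈ (nb (bl l x.1)).filter (fun b' => reg (tc l b') ≠ reg x.1),
        o (bl l x.1) b' x) else 0) +
      ∑ b ∈ (nb (bl l x.1)).filter (fun b => reg (tc l b) ∈ S ∧ reg (tc l b) ≠ reg x.1),
        o (bl l x.1) b x := by
  classical
  have hB : ∀ R ∈ S, ∀ b, b ∈ R.image (bl l) ↔ reg (tc l b) = R := by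
    intro R hR b
    constructor
    · intro hb
      obtain ⟨y, hy, rfl⟩ := Finset.mem_image.1 hb
      rw [← hpart R hR y hy]
      apply hbase
      rw [bl_tc hl]
    · rintro rfl
      exact Finset.mem_image.2 ⟨_, hmem _, bl_tc hl b⟩
  have hB2 : ∀ R ∈ S, (bl l x.1 ∈ R.image (bl l) ↔ reg x.1 = R) := by
    intro R hR
    rw [hB R hR, hbase (tc l (bl l x.1)) x.1 (bl_tc hl _)]
  have h1 : ∀ R ∈ S, regP l n o R x = (if reg x.1 = R then
      (n x - ∑ b' ∈ (nb (bl l x.1)).filter (fun b' => reg (tc l b') ≠ reg x.1),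
        o (bl l x.1) b' x) else 0) +
      ∑ b ∈ ((nb (bl l x.1)).filter
        (fun b => reg (tc l b) ∈ S ∧ reg (tc l b) ≠ reg x.1)).filter
          (fun b => reg (tc l b) = R), o (bl l x.1) b x := by
    intro R hR
    unfold regP
    rw [Finsupp.add_apply, Finsupp.tsub_apply, outP_apply h, inP_apply h, rst_apply]
    by_cases hx : reg x.1 = R
    · rw [if_pos ((hB2 R hR).2 hx), if_pos ((hB2 R hR).2 hx), if_pos hx,
        if_pos (show x.1 ∈ R by rw [← hx]; exact hmem _)]
      congr 1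
      · congr 1
        apply Finset.sum_congr _ (fun _ _ => rfl)
        apply Finset.filter_congr
        intro b _
        rw [hB R hR, hx]
      · symm
        apply Finset.sum_eq_zero
        intro b hb
        exfalso
        rw [Finset.mem_filter, Finset.mem_filter] at hb
        exact hb.1.2.2 (hb.2.trans hx.symm)
    · have hxR : x.1 ∉ R := fun hcon => hx (hpart R hR _ hcon)
      rw [if_neg (fun hcon => hx ((hB2 R hR).1 hcon)), if_neg (fun hcon => hx ((hB2 R hR).1 hcon)),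
        if_neg hx, if_neg hxR]
      congr 1
      apply Finset.sum_congr _ (fun _ _ => rfl)
      rw [Finset.filter_filter]
      apply Finset.filter_congr
      intro b _
      rw [hB R hR]
      constructor
      · intro hb
        exact ⟨⟨by rw [hb]; exact hR, by rw [hb]; exact fun hcon => hx hcon.symm⟩, hb⟩
      · exact fun hb => hb.2
  rw [Finset.sum_congr rfl h1, Finset.sum_add_distrib]
  congr 1
  · rw [Finset.sum_ite_eq]
  · rw [Finset.sum_fiberwise_of_maps_to]
    intro b hb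
    exact (Finset.mem_filter.1 hb).2.1

theorem out_le {l E : ℕ} (hl : 1 ≤ l) {n : Cfg d q} {o : Cell d → Cell d → Pat d q}
    (h : Mv l E n o) (x : CC d q) : ∑ b' ∈ nb (bl l x.1), o (bl l x.1) b' x ≤ n x := by
  have h1 := h.sum (bl l x.1) x
  rw [rst_apply, if_pos (mem_cellsOf_bl hl x.1)] at h1
  exact h1

theorem sum_regP_le {l E : ℕ} (hl : 1 ≤ l) {n : Cfg d q} {o : Cell d → Cell d → Pat d q}
    (h : Mv l E n o) (reg : Cell d → Finset (Cell d)) (S : Finset (Finset (Cell d)))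
    (hmem : ∀ x, x ∈ reg x) (hpart : ∀ R ∈ S, ∀ y ∈ R, reg y = R)
    (hbase : ∀ x y, bl l x = bl l y → reg x = reg y) (x : CC d q) :
    ∑ R ∈ S, regP l n o R x ≤ n x := by
  classical
  rw [sum_regP hl h reg S hmem hpart hbase]
  have h1 := out_le hl h x
  have h2 : ∑ b ∈ (nb (bl l x.1)).filter (fun b => reg (tc l b) ∈ S ∧ reg (tc l b) ≠ reg x.1),
      o (bl l x.1) b x ≤ ∑ b' ∈ (nb (bl l x.1)).filter (fun b' => reg (tc l b') ≠ reg x.1),
        o (bl l x.1) b' x := by
    apply Finset.sum_le_sum_of_subset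
    intro b hb
    rw [Finset.mem_filter] at hb ⊢
    exact ⟨hb.1, hb.2.2⟩
  have h3 : ∑ b' ∈ (nb (bl l x.1)).filter (fun b' => reg (tc l b') ≠ reg x.1),
        o (bl l x.1) b' x ≤ ∑ b' ∈ nb (bl l x.1), o (bl l x.1) b' x := by
    apply Finset.sum_le_sum_of_subset
    exact Finset.filter_subset _ _
  split_ifs <;> omega

theorem sum_regP_eq {l E : ℕ} (hl : 1 ≤ l) {n : Cfg d q} {o : Cell d → Cell d → Pat d q}
    (h : Mv l E n o) (reg : Cell d → Finset (Cell d)) (S : Finset (Finset (Cell d)))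
    (hmem : ∀ x, x ∈ reg x) (hpart : ∀ R ∈ S, ∀ y ∈ R, reg y = R)
    (hbase : ∀ x y, bl l x = bl l y → reg x = reg y) (x : CC d q) (hx : reg x.1 ∈ S)
    (hnb : ∀ b ∈ nb (bl l x.1), reg (tc l b) ∈ S) :
    ∑ R ∈ S, regP l n o R x = n x := by
  classical
  rw [sum_regP hl h reg S hmem hpart hbase, if_pos hx]
  have h1 := out_le hl h x
  have h2 : (nb (bl l x.1)).filter (fun b => reg (tc l b) ∈ S ∧ reg (tc l b) ≠ reg x.1) =
      (nb (bl l x.1)).filter (fun b' => reg (tc l b') ≠ reg x.1) := by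
    apply Finset.filter_congr
    intro b hb
    exact ⟨fun h => h.2, fun h => ⟨hnb b hb, h⟩⟩
  have h3 : ∑ b' ∈ (nb (bl l x.1)).filter (fun b' => reg (tc l b') ≠ reg x.1),
        o (bl l x.1) b' x ≤ ∑ b' ∈ nb (bl l x.1), o (bl l x.1) b' x := by
    apply Finset.sum_le_sum_of_subset
    exact Finset.filter_subset _ _
  rw [h2]
  omega

/-- class of a pattern -/
noncomputable def cT (V : Finset (Fin q → ℕ)) : Pat d q →+ (Fin q → ℤ) ⧸ Lat V where
  toFun u := QuotientAddGroup.mk (toZ (tot u))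
  map_zero' := by rw [tot_zero, toZ_zero]; rfl
  map_add' u v := by rw [tot_add, toZ_add]; rfl

theorem cT_eq_zero {V : Finset (Fin q → ℕ)} {u : Pat d q} (h : cT V u = 0) :
    toZ (tot u) ∈ Lat V := (QuotientAddGroup.eq_zero_iff _).1 h

/-- class of a region -/
theorem cT_regP {l E : ℕ} (hl : 1 ≤ l) {n : Cfg d q} {o : Cell d → Cell d → Pat d q}
    (h : Mv l E n o) (V : Finset (Fin q → ℕ)) (R : Finset (Cell d))
    (hR : ∀ x ∈ R, ∀ y, bl l x = bl l y → y ∈ R) :
    cT V (regP l n o R) = ∑ b ∈ R.image (bl l), (cT V (rst n (cellsOf l b)) -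
      ∑ b' ∈ (nb b).filter (fun b' => b' ∉ R.image (bl l)), cT V (o b b') +
      ∑ b' ∈ (nb b).filter (fun b' => b' ∉ R.image (bl l)), cT V (o b' b)) := by
  classical
  have hRB : ∀ x, bl l x ∈ R.image (bl l) ↔ x ∈ R := by
    intro x
    constructor
    · intro hx
      obtain ⟨y, hy, hyx⟩ := Finset.mem_image.1 hx
      exact hR y hy x hyx
    · exact fun hx => Finset.mem_image.2 ⟨x, hx, rfl⟩
  have h1 : outP l o R ≤ rst n R := by
    intro x
    rw [outP_apply h, rst_apply]
    by_cases hx : bl l x.1 ∈ R.image (bl l)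
    · rw [if_pos hx, if_pos ((hRB _).1 hx)]
      refine le_trans ?_ (out_le hl h x)
      apply Finset.sum_le_sum_of_subset
      exact Finset.filter_subset _ _
    · rw [if_neg hx]; exact Nat.zero_le _
  have h2 : rst n R = ∑ b ∈ R.image (bl l), rst n (cellsOf l b) := by
    ext x
    rw [Finsupp.finsetSum_apply, rst_apply]
    have e : ∀ b, (rst n (cellsOf l b)) x = if bl l x.1 = b then n x else 0 := by
      intro b
      rw [rst_apply]
      by_cases hb : bl l x.1 = b
      · rw [if_pos hb, if_pos ((mem_cellsOf hl).2 hb)]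
      · rw [if_neg hb, if_neg (fun hcon => hb ((mem_cellsOf hl).1 hcon))]
    simp only [e]
    rw [Finset.sum_ite_eq]
    by_cases hx : x.1 ∈ R
    · rw [if_pos hx, if_pos ((hRB _).2 hx)]
    · rw [if_neg hx, if_neg (fun hcon => hx ((hRB _).1 hcon))]
  have h3 : cT V (rst n R - outP l o R) = cT V (rst n R) - cT V (outP l o R) := by
    rw [eq_sub_iff_add_eq, ← map_add, tsub_add_cancel_of_le h1]
  unfold regP
  rw [map_add, h3, h2, map_sum]
  unfold outP inP
  rw [map_sum, map_sum, ← Finset.sum_sub_distrib, ← Finset.sum_add_distrib]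
  refine Finset.sum_congr rfl fun b _ => ?_
  rw [map_sum, map_sum]

/-- cancellation of the flows inside a region -/
theorem flow_cancel {A : Type} [AddCommGroup A] (B BR : Finset (Cell d)) (hBR : BR ⊆ B)
    (φ : Cell d → Cell d → A) (hφ : ∀ b b', φ b b' ≠ 0 → b ∈ B ∧ b' ∈ B ∧ Adj b b') :
    ∑ b ∈ BR, ((∑ b' ∈ B, φ b b' - ∑ b' ∈ B, φ b' b) -
      ∑ b' ∈ (nb b).filter (fun b' => b' ∉ BR), φ b b' +
      ∑ b' ∈ (nb b).filter (fun b' => b' ∉ BR), φ b' b) = 0 := by
  classical
  have h1 : ∀ b, ∑ b' ∈ (nb b).filter (fun b' => b' ∉ BR), φ b b' =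
      ∑ b' ∈ B.filter (fun b' => b' ∉ BR), φ b b' := by
    intro b
    have e1 : ∑ b' ∈ (nb b).filter (fun b' => b' ∉ BR), φ b b' =
        ∑ b' ∈ (nb b ∪ B).filter (fun b' => b' ∉ BR), φ b b' := by
      apply Finset.sum_subset
      · exact Finset.filter_subset_filter _ Finset.subset_union_left
      · intro b' hb' hb'2
        by_contra hcon
        apply hb'2
        rw [Finset.mem_filter] at hb' ⊢
        exact ⟨mem_nb.2 (hφ _ _ hcon).2.2, hb'.2⟩
    have e2 : ∑ b' ∈ B.filter (fun b' => b' ∉ BR), φ b b' =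
        ∑ b' ∈ (nb b ∪ B).filter (fun b' => b' ∉ BR), φ b b' := by
      apply Finset.sum_subset
      · exact Finset.filter_subset_filter _ Finset.subset_union_right
      · intro b' hb' hb'2
        by_contra hcon
        apply hb'2
        rw [Finset.mem_filter] at hb' ⊢
        exact ⟨(hφ _ _ hcon).2.1, hb'.2⟩
    rw [e1, e2]
  have h2 : ∀ b, ∑ b' ∈ (nb b).filter (fun b' => b' ∉ BR), φ b' b =
      ∑ b' ∈ B.filter (fun b' => b' ∉ BR), φ b' b := by
    intro b
    have e1 : ∑ b' ∈ (nb b).filter (fun b' => b' ∉ BR), φ b' b =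
        ∑ b' ∈ (nb b ∪ B).filter (fun b' => b' ∉ BR), φ b' b := by
      apply Finset.sum_subset
      · exact Finset.filter_subset_filter _ Finset.subset_union_left
      · intro b' hb' hb'2
        by_contra hcon
        apply hb'2
        rw [Finset.mem_filter] at hb' ⊢
        exact ⟨nb_comm.2 (mem_nb.2 (hφ _ _ hcon).2.2), hb'.2⟩
    have e2 : ∑ b' ∈ B.filter (fun b' => b' ∉ BR), φ b' b =
        ∑ b' ∈ (nb b ∪ B).filter (fun b' => b' ∉ BR), φ b' b := by
      apply Finset.sum_subset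
      · exact Finset.filter_subset_filter _ Finset.subset_union_right
      · intro b' hb' hb'2
        by_contra hcon
        apply hb'2
        rw [Finset.mem_filter] at hb' ⊢
        exact ⟨(hφ _ _ hcon).1, hb'.2⟩
    rw [e1, e2]
  have h3 : B.filter (fun b' => b' ∈ BR) = BR := by
    ext b
    rw [Finset.mem_filter]
    exact ⟨fun hb => hb.2, fun hb => ⟨hBR hb, hb⟩⟩
  have h4 : ∀ g : Cell d → A, ∑ b' ∈ B, g b' = ∑ b' ∈ BR, g b' +
      ∑ b' ∈ B.filter (fun b' => b' ∉ BR), g b' := by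
    intro g
    rw [← Finset.sum_filter_add_sum_filter_not B (fun b' => b' ∈ BR), h3]
  have h5 : ∑ b ∈ BR, ((∑ b' ∈ B, φ b b' - ∑ b' ∈ B, φ b' b) -
      ∑ b' ∈ (nb b).filter (fun b' => b' ∉ BR), φ b b' +
      ∑ b' ∈ (nb b).filter (fun b' => b' ∉ BR), φ b' b) =
      ∑ b ∈ BR, (∑ b' ∈ BR, φ b b' - ∑ b' ∈ BR, φ b' b) := by
    refine Finset.sum_congr rfl fun b _ => ?_
    rw [h1, h2, h4 (fun b' => φ b b'), h4 (fun b' => φ b' b)]
    abel
  rw [h5, Finset.sum_sub_distrib, Finset.sum_comm, sub_self]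

theorem near_of_regP {l E : ℕ} {n : Cfg d q} {o : Cell d → Cell d → Pat d q}
    (h : Mv l E n o) (R : Finset (Cell d)) (x : CC d q) (hx : regP l n o R x ≠ 0) :
    ∃ y ∈ R, sn (bl l x.1 - bl l y) ≤ 1 := by
  classical
  by_cases hxR : x.1 ∈ R
  · exact ⟨x.1, hxR, by rw [sub_self, sn_zero]; omega⟩
  · unfold regP at hx
    rw [Finsupp.add_apply, Finsupp.tsub_apply, rst_apply, if_neg hxR, inP_apply h] at hx
    by_cases hb : bl l x.1 ∈ R.image (bl l)
    · rw [if_pos hb] at hx
      simp at hx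
    · rw [if_neg hb] at hx
      have h1 : ∑ b ∈ (nb (bl l x.1)).filter (fun b => b ∈ R.image (bl l)),
          o (bl l x.1) b x ≠ 0 := by omega
      obtain ⟨b, hb1, -⟩ := Finset.exists_ne_zero_of_sum_ne_zero h1
      rw [Finset.mem_filter, Finset.mem_image] at hb1
      obtain ⟨hb2, y, hy, rfl⟩ := hb1
      exact ⟨y, hy, sn_of_adj (mem_nb.1 hb2)⟩

theorem sn_tc_le (l : ℕ) (b : Cell d) : sn (tc l b) ≤ l * sn b := by
  rw [sn_le_iff]
  intro i
  have h1 := natAbs_le_sn b i
  show ((l : ℤ) * b i).natAbs ≤ l * sn b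
  rw [Int.natAbs_mul, Int.natAbs_natCast]
  exact Nat.mul_le_mul_left _ h1

theorem bl_zero (l : ℕ) : bl l (0 : Cell d) = 0 := by
  funext i
  simp [bl]

end Pool.Agent.H47.MC.WIN

namespace Pool.Agent.H47.MC

open Pool.Agent.H96.MC ZONS REGJ WIN

theorem winmod (h1 : T_FLOW) (h2 : T_BOX) (h3 : T_MOVE) (h4 : T_REGZ) (h5 : T_REGJ) : T_WIN := by
  classical
  intro d q D η c₁ E P hd hAL hCl hP n J reg lev hz hFF
  have hl0 : 1 ≤ P.l 0 := hP.lpos 0
  have hAmono := A_mono hP.Amono
  have hA1 : 64 * P.A J ≤ P.A (J + 1) := hP.Amono J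
  have hA0 : P.A 0 ≤ P.A J := hAmono (Nat.zero_le J)
  have hlA : 16 * P.l 0 ≤ P.A 0 := hP.lA 0
  set l0 := P.l 0 with hl0def
  set Aw := P.A (J + 1) with hAw
  set h0 := Aw / (2 * l0) with hh0
  set B : Finset (Cell d) := cube 0 h0 with hB
  have hBmem : ∀ b, b ∈ B ↔ sn b ≤ h0 := by
    intro b
    rw [hB, mem_cube, sub_zero]
  set β0 : Cell d := fun _ => (h0 : ℤ) with hβ0
  have hβB : β0 ∈ B := by
    rw [hBmem, sn_le_iff]
    intro i
    simp [hβ0]
  have hsnβ : sn β0 = h0 := by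
    apply le_antisymm ((hBmem _).1 hβB)
    have h6 := natAbs_le_sn β0 ⟨0, hd⟩
    simpa [hβ0] using h6
  have hlh : 2 * (l0 * h0) ≤ Aw := by
    have h6 := Nat.div_mul_le_self Aw (2 * l0)
    rw [← hh0] at h6
    calc 2 * (l0 * h0) = h0 * (2 * l0) := by ring
      _ ≤ Aw := h6
  have htcAw : ∀ b ∈ B, sn (tc l0 b) ≤ Aw := by
    intro b hb
    have h6 := sn_tc_le l0 b
    have h7 : l0 * sn b ≤ l0 * h0 := Nat.mul_le_mul_left _ ((hBmem b).1 hb)
    omega
  -- regions and base blocks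
  have hreg : ∀ x y, bl l0 x = bl l0 y → reg x = reg y :=
    fun x y hxy => ((hz.part x y (hz.base x y hxy)).1).symm
  have hclosed : ∀ x, ∀ y ∈ reg x, ∀ w, bl l0 y = bl l0 w → w ∈ reg x := by
    intro x y hy w hw
    rw [← (hz.part x y hy).1]
    exact hz.base y w hw
  have hnF0 : ∀ x, sn x ≤ Aw → lev x = 0 → ¬ FF D P η n 0 x := by
    intro x hx hlev hcon
    exact hFF x hx (hz.res x hlev hcon)
  have hty : ∀ b b', b ∈ B → b' ∈ B → Adj b b' → reg (tc l0 b) ≠ reg (tc l0 b') →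
      Typ D η (P.w 0) l0 n b := by
    intro b b' hb hb' hadj hne
    have h6 : ¬ FF D P η n 0 (tc l0 b) := by
      rcases Nat.eq_zero_or_pos (lev (tc l0 b)) with hlev | hlev
      · exact hnF0 _ (htcAw b hb) hlev
      · apply hz.adj _ (tc l0 b') hlev _ hne
        rw [bl_tc hl0, bl_tc hl0]
        exact hadj
    rw [FF_zero, not_not, bl_tc hl0] at h6
    exact h6
  -- the flow
  set f : Cell d → (Fin q → ℤ) ⧸ Lat D.V := fun b =>
    if b = β0 then -∑ b' ∈ B.erase β0, cT D.V (rst n (cellsOf l0 b'))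
    else cT D.V (rst n (cellsOf l0 b)) with hf
  have hfsum : ∑ b ∈ B, f b = 0 := by
    rw [← Finset.add_sum_erase B f hβB]
    have h6 : ∑ b ∈ B.erase β0, f b = ∑ b ∈ B.erase β0, cT D.V (rst n (cellsOf l0 b)) :=
      Finset.sum_congr rfl fun b hb => if_neg (Finset.ne_of_mem_erase hb)
    have h7 : f β0 = -∑ b' ∈ B.erase β0, cT D.V (rst n (cellsOf l0 b')) := if_pos rfl
    rw [h6, h7, neg_add_cancel]
  have hconn : Conn B := h2 d _ _
  obtain ⟨φ, hφ1, hφ2⟩ := h1 d ((Fin q → ℤ) ⧸ Lat D.V) inferInstance B f hconn hfsum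
  obtain ⟨hE1, hCl2⟩ := hCl
  choose rep hrep1 hrep2 using hCl2
  have hrep3 : ∀ g : (Fin q → ℤ) ⧸ Lat D.V, (QuotientAddGroup.mk (toZ (rep g.out)) :
      (Fin q → ℤ) ⧸ Lat D.V) = g := by
    intro g
    have h6 : (QuotientAddGroup.mk (toZ (rep g.out)) : (Fin q → ℤ) ⧸ Lat D.V) =
        QuotientAddGroup.mk g.out := by
      rw [QuotientAddGroup.eq]
      have h7 := hrep2 g.out
      rw [← sub_eq_neg_add]
      exact h7
    rw [h6]
    exact QuotientAddGroup.out_eq' g
  set σ : Cell d → Cell d → Fin q → ℕ := fun b b' =>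
    if φ b b' = 0 ∨ reg (tc l0 b) = reg (tc l0 b') then 0 else rep (φ b b').out with hσ
  have hσE : ∀ b b' i, σ b b' i ≤ E := by
    intro b b' i
    simp only [hσ]
    split_ifs
    · exact Nat.zero_le _
    · exact (hrep1 _ i).le
  have hσ2 : ∀ b b', σ b b' ≠ 0 → Adj b b' ∧ ∀ i, 2 * d * E ≤ bc l0 n (b, i) := by
    intro b b' hs
    have h6 : ¬ (φ b b' = 0 ∨ reg (tc l0 b) = reg (tc l0 b')) := by
      intro hcon
      apply hs
      simp only [hσ]
      rw [if_pos hcon]
    push Not at h6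
    obtain ⟨hb, hb', hadj⟩ := hφ1 b b' h6.1
    refine ⟨hadj, fun i => ?_⟩
    have h7 := (hty b b' hb hb' hadj h6.2).1 i
    have h8 := hP.l0E i
    have hη1 := hAL.1
    have hη2 := hAL.2.1
    have hpos : 0 ≤ (l0 : ℝ) ^ d * D.lam i := mul_nonneg (by positivity) (D.pos i).le
    rw [abs_le] at h7
    have h9 : (2 : ℝ) * d * E ≤ (bc l0 n (b, i) : ℝ) := by
      have h10 : η * (l0 : ℝ) ^ d * D.lam i ≤ 1 / 2 * ((l0 : ℝ) ^ d * D.lam i) := by
        rw [mul_assoc]
        exact mul_le_mul_of_nonneg_right hη2 hpos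
      have h11 : η / 4 * (l0 : ℝ) ^ d * D.lam i = (η * (l0 : ℝ) ^ d * D.lam i) / 4 := by ring
      rw [h11] at h7
      have h12 := h7.1
      simp only [← hl0def] at h8
      nlinarith
    exact_mod_cast h9
  obtain ⟨o, hMv, htot⟩ := h3 d q l0 E n σ hl0 hσE hσ2
  have hcT : ∀ b b', reg (tc l0 b) ≠ reg (tc l0 b') → cT D.V (o b b') = φ b b' := by
    intro b b' hne
    show (QuotientAddGroup.mk (toZ (tot (o b b'))) : (Fin q → ℤ) ⧸ Lat D.V) = φ b b'
    rw [htot]
    simp only [hσ]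
    by_cases h6 : φ b b' = 0
    · rw [if_pos (Or.inl h6), h6, toZ_zero]
      rfl
    · rw [if_neg (by push Not; exact ⟨h6, hne⟩), hrep3]
  -- inner regions
  set S : Finset (Finset (Cell d)) := (B.image (fun b => reg (tc l0 b))).filter
    (fun R => ∀ b ∈ R.image (bl l0), b ∈ B ∧ b ≠ β0) with hS
  have hSpart : ∀ R ∈ S, ∀ y ∈ R, reg y = R := by
    intro R hR y hy
    rw [hS, Finset.mem_filter, Finset.mem_image] at hR
    obtain ⟨⟨b, -, rfl⟩, -⟩ := hR
    exact (hz.part _ y hy).1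
  have hkey : ∀ R, ∃ mu : Multiset (Pat d q), R ∈ S → mu.sum = regP l0 n o R ∧
      ∀ u ∈ mu, u ≠ 0 ∧ tot u ∈ D.V ∧ (∀ x ∈ u.support, sn x.1 ≤ Aw) ∧
        ∀ x ∈ u.support, ∀ r, Allow D P η n J x.1 r → Fam D.V r u := by
    intro R
    by_cases hRS : R ∈ S
    swap
    · exact ⟨0, fun hcon => absurd hcon hRS⟩
    have hR1 := hRS
    rw [hS, Finset.mem_filter, Finset.mem_image] at hR1
    obtain ⟨⟨b1, hb1, hb1R⟩, hinner⟩ := hR1
    have hRcl : ∀ x ∈ R, ∀ y, bl l0 x = bl l0 y → y ∈ R := by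
      rw [← hb1R]
      exact hclosed _
    have hBRreg : ∀ b, b ∈ R.image (bl l0) ↔ reg (tc l0 b) = R := by
      intro b
      constructor
      · intro hb
        obtain ⟨y, hy, rfl⟩ := Finset.mem_image.1 hb
        rw [← hSpart R hRS y hy]
        apply hreg
        rw [bl_tc hl0]
      · intro hb
        rw [Finset.mem_image]
        refine ⟨tc l0 b, ?_, bl_tc hl0 b⟩
        rw [← hb]
        exact hz.mem _
    -- the class
    have hcls : cT D.V (regP l0 n o R) = 0 := by
      rw [cT_regP hl0 hMv D.V R hRcl, ← flow_cancel B (R.image (bl l0))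
        (fun b hb => (hinner b hb).1) φ hφ1]
      refine Finset.sum_congr rfl fun b hb => ?_
      have hb2 := (hBRreg b).1 hb
      congr 1
      · congr 1
        · rw [hφ2 b (hinner b hb).1]
          exact (if_neg (hinner b hb).2).symm
        · refine Finset.sum_congr rfl fun b' hb' => hcT b b' ?_
          rw [Finset.mem_filter] at hb'
          rw [hb2]
          exact fun hcon => hb'.2 ((hBRreg b').2 hcon.symm)
      · refine Finset.sum_congr rfl fun b' hb' => hcT b' b ?_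
        rw [Finset.mem_filter] at hb'
        rw [hb2]
        exact fun hcon => hb'.2 ((hBRreg b').2 hcon)
    have hcls2 := cT_eq_zero hcls
    -- the matching of the region
    have hTl : ∃ r : ℝ, regP l0 n o R ∈ Tl D.V r ∧ ∀ x : Cell d, (∃ y ∈ R, sn (x - y) ≤ 2 * l0) →
        ∀ r', Allow D P η n J x r' → r ≤ r' := by
      rcases Nat.eq_zero_or_pos (lev (tc l0 b1)) with hlev | hlev
      · refine ⟨3 * d * (P.l 0 : ℝ), ?_, ?_⟩
        · have h6 := hz.lev0 _ hlev
          have h7 : R = cellsOf (P.l 0) (bl (P.l 0) (tc l0 b1)) := by rw [← hb1R]; exact h6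
          have h8 := h4 d q D η c₁ E P hd hAL hP n o (tc l0 b1) hMv
            (hnF0 _ (htcAw b1 hb1) hlev)
          rw [← h7] at h8
          exact h8 hcls2
        · intro x _ r' hr'
          exact hr'.1
      · obtain ⟨z, Y, hjJ, hFz, hnFz, hRA, hYc, hYA, hRY, hYR, hcol⟩ := hz.zone _ hlev
        rw [hb1R] at hRA hRY hYR
        refine ⟨P.R d (lev (tc l0 b1)), ?_, ?_⟩
        · exact h5 d q D η c₁ E P hd hAL hP n o (lev (tc l0 b1)) z Y R hlev hMv hnFz hRcl hYc hYA
            hRY hYR hcol hcls2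
        · intro x hx r' hr'
          obtain ⟨y, hy, hxy⟩ := hx
          apply hr'.2 _ hlev hjJ
          refine ⟨z, ?_, hFz⟩
          have h6 := hRA y hy
          have h7 : 8 * d * l0 ≤ P.l (lev (tc l0 b1)) := hP.lbig _ hlev
          have h8 := sn_sub_le z y x
          rw [sn_sub_comm z y, sn_sub_comm y x] at h8
          have h9 : 2 * l0 ≤ 8 * d * l0 := Nat.mul_le_mul_right _ (by omega)
          omega
    obtain ⟨r, hr1, hr2⟩ := hTl
    obtain ⟨mu, hmu1, hmu2⟩ := Tl_exists hr1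
    refine ⟨mu, fun _ => ⟨hmu2, fun u hu => ?_⟩⟩
    have hFam := hmu1 u hu
    have hle : u ≤ regP l0 n o R := by
      rw [← hmu2]
      exact Multiset.single_le_sum (fun _ _ => zero_le) u hu
    have hnear : ∀ x ∈ u.support, ∃ y ∈ R, sn (x.1 - y) ≤ 2 * l0 := by
      intro x hx
      rw [Finsupp.mem_support_iff] at hx
      have h6 : regP l0 n o R x ≠ 0 := by
        have := hle x
        omega
      obtain ⟨y, hy, hxy⟩ := near_of_regP hMv R x h6
      refine ⟨y, hy, ?_⟩
      have h7 := sn_le_bl hl0 x.1 y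
      have h8 : l0 * sn (bl l0 x.1 - bl l0 y) ≤ l0 * 1 := Nat.mul_le_mul_left _ hxy
      omega
    refine ⟨hFam.1, hFam.2.1, ?_, ?_⟩
    · intro x hx
      obtain ⟨y, hy, hxy⟩ := hnear x hx
      have h6 := (hinner (bl l0 y) (Finset.mem_image.2 ⟨y, hy, rfl⟩)).1
      rw [hBmem] at h6
      have h7 := sn_le_bl hl0 y 0
      rw [bl_zero, sub_zero, sub_zero] at h7
      have h8 : l0 * sn (bl l0 y) ≤ l0 * h0 := Nat.mul_le_mul_left _ h6
      have h9 := sn_add_le (x.1 - y) y
      rw [sub_add_cancel] at h9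
      omega
    · intro x hx r' hr'
      exact Fam_mono (hr2 x.1 (hnear x hx) r' hr') hFam
  choose mu hmu using hkey
  have hsum : ∀ x, (∑ R ∈ S, mu R).sum x = ∑ R ∈ S, regP l0 n o R x := by
    intro x
    have h6 : (∑ R ∈ S, mu R).sum = ∑ R ∈ S, (mu R).sum :=
      map_sum (Multiset.sumAddMonoidHom : Multiset (Pat d q) →+ Pat d q) mu S
    rw [h6, Finsupp.finsetSum_apply]
    exact Finset.sum_congr rfl fun R hR => by rw [(hmu R hR).1]
  refine ⟨∑ R ∈ S, mu R, ?_, ?_, ?_⟩
  · intro x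
    rw [hsum]
    exact sum_regP_le hl0 hMv reg S hz.mem hSpart hreg x
  · intro x hx
    rw [hsum]
    have hin : ∀ c' : Cell d, sn (c' - x.1) ≤ 2 * l0 → reg c' ∈ S := by
      intro c' hc'
      have h6 : ∀ y ∈ reg c', sn (y - c') ≤ 2 * P.A J + l0 := by
        intro y hy
        rcases Nat.eq_zero_or_pos (lev c') with hlev | hlev
        · rw [hz.lev0 _ hlev, mem_cellsOf hl0] at hy
          have h7 := sn_le_bl hl0 y c'
          have h8 : sn (bl l0 y - bl l0 c') = 0 := by rw [hy, sub_self, sn_zero]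
          rw [h8] at h7
          omega
        · obtain ⟨z, Y, hjJ, -, -, hRA, -⟩ := hz.zone _ hlev
          have h7 := hRA y hy
          have h8 := hRA c' (hz.mem c')
          have h9 := hAmono hjJ
          have h10 := sn_sub_le y z c'
          rw [sn_sub_comm z c'] at h10
          omega
      have h7 : ∀ y ∈ reg c', sn (bl l0 y) < h0 := by
        intro y hy
        have h8 := h6 y hy
        have h9 := sn_add_le (y - c') (c' - x.1)
        have h10 := sn_add_le (y - c' + (c' - x.1)) x.1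
        have h11 : y - c' + (c' - x.1) + x.1 = y := by abel
        rw [h11] at h10
        have h12 := sn_bl_mul_le hl0 y 0
        rw [bl_zero, sub_zero, sub_zero] at h12
        have h13 : sn (bl l0 y) + 1 ≤ h0 := by
          rw [hh0, Nat.le_div_iff_mul_le (by omega)]
          have h14 : (sn (bl l0 y) + 1) * (2 * l0) = 2 * (sn (bl l0 y) * l0) + 2 * l0 := by ring
          rw [h14]
          omega
        omega
      rw [hS, Finset.mem_filter, Finset.mem_image]
      refine ⟨⟨bl l0 c', ?_, hreg _ _ (bl_tc hl0 _)⟩, ?_⟩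
      · rw [hBmem]
        exact (h7 c' (hz.mem c')).le
      · intro b hb
        obtain ⟨y, hy, rfl⟩ := Finset.mem_image.1 hb
        have h8 := h7 y hy
        refine ⟨(hBmem _).2 h8.le, ?_⟩
        intro hcon
        rw [hcon, hsnβ] at h8
        exact lt_irrefl _ h8
    apply sum_regP_eq hl0 hMv reg S hz.mem hSpart hreg x
    · apply hin
      rw [sub_self, sn_zero]
      exact Nat.zero_le _
    · intro b hb
      apply hin
      have h6 := sn_le_bl hl0 (tc l0 b) x.1
      rw [bl_tc hl0] at h6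
      have h7 := sn_of_adj (mem_nb.1 (nb_comm.1 hb))
      have h8 : l0 * sn (b - bl l0 x.1) ≤ l0 * 1 := Nat.mul_le_mul_left _ h7
      omega
  · intro u hu
    rw [Multiset.mem_sum] at hu
    obtain ⟨R, hR, huR⟩ := hu
    exact (hmu R hR).2 u huR

end Pool.Agent.H47.MC
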